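import Pool.Agent.H72.SBP.HLB
import Pool.Agent.H78.BF.SUB

open Module Filter

namespace Pool.Agent.H72.SBP

open Pool.Agent.H72.HR
open Pool.Agent.H72.BF

noncomputable section

/-- a maximal subfamily independent modulo `2πi` -/
theorem exists_mu (n r : ℕ) (lam : Fin n → ℂ)
    (hr : r + 1 = finrank ℚ (Submodule.span ℚ (insert (2 * Real.pi * Complex.I) (Set.range lam)))) :
    ∃ σ : Fin r → Fin n, MI (fun k => lam (σ k)) Set.univ := by
  classical
  obtain ⟨v, hv⟩ : ∃ v : Option (Fin n) → ℂ,
    v = fun x => Option.elim x (2 * Real.pi * Complex.I) lam := ⟨_, rfl⟩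
  have hpi : (2 * Real.pi * Complex.I : ℂ) ≠ 0 := by
    simp [Real.pi_ne_zero]
  have h0 : LinearIndepOn ℚ v {none} := by
    rw [linearIndepOn_singleton_iff]
    rw [hv]
    exact hpi
  obtain ⟨b, _, hb0, hspan, hli⟩ := exists_linearIndepOn_extension h0 (Set.subset_univ _)
  have hb0' : none ∈ b := hb0 rfl
  have hrange : v '' Set.univ = insert (2 * Real.pi * Complex.I) (Set.range lam) := by
    rw [Set.image_univ, hv]
    ext x
    constructor
    · rintro ⟨o, rfl⟩
      cases o with
      | none => exact Set.mem_insert _ _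
      | some i => exact Set.mem_insert_of_mem _ ⟨i, rfl⟩
    · rintro (h | ⟨i, rfl⟩)
      · exact ⟨none, h.symm⟩
      · exact ⟨some i, rfl⟩
  have hspan2 : Submodule.span ℚ (v '' b) =
      Submodule.span ℚ (insert (2 * Real.pi * Complex.I) (Set.range lam)) := by
    rw [← hrange]
    apply le_antisymm
    · exact Submodule.span_mono (Set.image_mono (Set.subset_univ _))
    · rw [Submodule.span_le]
      exact hspan
  have hcard : Fintype.card b = r + 1 := by
    rw [hr, ← hspan2]
    have h1 := finrank_span_eq_card (R := ℚ) (b := fun x : b => v x.1) hli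
    rw [← h1]
    have h2 : v '' b = Set.range (fun x : b => v x.1) := Set.image_eq_range v b
    rw [h2]
  -- the indices of b different from none
  obtain ⟨c, hc⟩ : ∃ c : Finset (Fin n), c = Finset.univ.filter (fun i => some i ∈ b) := ⟨_, rfl⟩
  have hccard : c.card = r := by
    have h1 : Fintype.card b = (insert none (c.map Function.Embedding.some)).card := by
      rw [← Set.toFinset_card]
      congr 1
      ext x
      rw [Set.mem_toFinset, Finset.mem_insert, Finset.mem_map]
      constructor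
      · intro hx
        cases x with
        | none => exact Or.inl rfl
        | some i =>
          right
          exact ⟨i, by rw [hc]; simpa using hx, rfl⟩
      · rintro (h | ⟨i, hi, h⟩)
        · rw [h]; exact hb0'
        · rw [← h]
          rw [hc] at hi
          simpa using hi
    rw [Finset.card_insert_of_notMem (by simp), Finset.card_map] at h1
    omega
  have hcmem : ∀ i ∈ c, some i ∈ b := by
    intro i hi
    rw [hc] at hi
    simpa using hi
  obtain ⟨e⟩ : Nonempty (Fin r ≃ c) := ⟨(finCongr hccard.symm).trans c.equivFin.symm⟩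
  refine ⟨fun k => (e k).1, ?_⟩
  intro m hm k _
  rw [Complex.exp_eq_one_iff] at hm
  obtain ⟨N, hN⟩ := hm
  have hmem : ∀ k, some (e k).1 ∈ b := by
    intro k
    exact hcmem _ (e k).2
  obtain ⟨f, hf⟩ : ∃ f : Option (Fin r) → b,
    f = fun o => Option.elim o ⟨none, hb0'⟩ (fun k => ⟨some (e k).1, hmem k⟩) := ⟨_, rfl⟩
  have hfinj : Function.Injective f := by
    rw [hf]
    intro o o' h
    cases o with
    | none =>
      cases o' with
      | none => rfl
      | some k => simp at h
    | some k =>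
      cases o' with
      | none => simp at h
      | some k' =>
        simp only [Option.elim, Subtype.mk.injEq, Option.some.injEq] at h
        have := e.injective (Subtype.ext h)
        rw [this]
  have h2 : LinearIndependent ℚ (fun o => v (f o).1) :=
    LinearIndependent.comp (v := fun x : b => v x.1) hli f hfinj
  rw [Fintype.linearIndependent_iff] at h2
  have h3 := h2 (fun o => Option.elim o (-(N : ℚ)) (fun k => (m k : ℚ))) (by
    rw [Fintype.sum_option, hf, hv]
    simp only [Option.elim, Rat.smul_def]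
    push_cast
    rw [hN]
    ring) (some k)
  simp only [Option.elim] at h3
  exact_mod_cast h3

/-- the height is at most the growing height -/
theorem pow_le_of_max (Hs : ℕ → ℝ) (hHs : ∀ t, 2 ≤ Hs t) (e : ℕ) :
    ∀ᶠ t : ℕ in atTop, (max (Hs t) ((t : ℝ) + 2)) ^ e ≤ Hs t ^ ((t : ℝ) + 1) := by
  have h2 : ∀ᶠ t : ℕ in atTop, ((t : ℝ) + 2) ^ e ≤ 2 ^ ((t : ℝ) + 1) := by
    have h3 : Tendsto (fun t : ℕ => ((t : ℝ) + 2) ^ e / 2 ^ t) atTop (nhds 0) := by
      have h4 : Tendsto (fun m : ℕ => (m : ℝ) ^ e / 2 ^ m) atTop (nhds 0) :=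
        tendsto_pow_const_div_const_pow_of_one_lt e (by norm_num)
      have h5 := (h4.comp (tendsto_add_atTop_nat 2)).mul_const (4 : ℝ)
      rw [zero_mul] at h5
      refine h5.congr fun t => ?_
      simp only [Function.comp]
      push_cast
      rw [pow_add]
      field_simp
      norm_num
    filter_upwards [h3.eventually (gt_mem_nhds (by norm_num : (0 : ℝ) < 1))] with t ht
    rw [div_lt_one (by positivity)] at ht
    rw [Real.rpow_add (by norm_num), Real.rpow_natCast, Real.rpow_one]
    nlinarith [pow_pos (by norm_num : (0 : ℝ) < 2) t]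
  filter_upwards [h2, eventually_ge_atTop e] with t ht hte
  rcases le_total (Hs t) ((t : ℝ) + 2) with hc1 | hc1
  · rw [max_eq_right hc1]
    refine ht.trans ?_
    exact Real.rpow_le_rpow (by norm_num) (hHs t) (by positivity)
  · rw [max_eq_left hc1, ← Real.rpow_natCast]
    refine Real.rpow_le_rpow_of_exponent_le (by linarith [hHs t]) ?_
    have : (e : ℝ) ≤ t := by exact_mod_cast hte
    linarith

open Pool.Agent.H78.BF in
theorem sbp (hBF : T_BF) (hPKG : T_PKG) (hBFF : T_BFF) (hEVP : T_EVP) (hMNR : T_MNR)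
    (hSUMA : T_SUMA) (hSPC : T_SPC) (hFHR : T_FHR) : T_SBP := by
  intro hHRA n lam hlam halg r0 hr0 d0
  obtain ⟨σ, hσ⟩ := exists_mu n r0 lam hr0
  obtain ⟨d, hd⟩ : ∃ d, d = d0 + 1 := ⟨_, rfl⟩
  obtain ⟨B, hB⟩ : ∃ B, B = n + 1 + d0 * max n ((r0 + 1) ^ 2 / 4) := ⟨_, rfl⟩
  rw [← hd, ← hB]
  by_contra hcon
  push Not at hcon
  obtain ⟨r, hr⟩ : ∃ r, r = (n + d).choose n - (B - 1) := ⟨_, rfl⟩
  have hstep : ∀ j : ℕ, ∃ H : ℝ, 2 ≤ H ∧ ∃ p : Fin r →
      MvPolynomial (Fin n) ℤ, (∀ s, p s ∈ Exc n lam d ((j : ℝ) + 1) H) ∧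
      LinearIndependent ℚ (fun s => MvPolynomial.map (Int.castRingHom ℚ) (p s)) := by
    intro j
    obtain ⟨H, hH, hW⟩ := hcon ((j : ℝ) + 1) (by positivity)
    refine ⟨H, hH, ?_⟩
    set S : Set (MvPolynomial (Fin n) ℚ) :=
      (fun P => MvPolynomial.map (Int.castRingHom ℚ) P) '' Exc n lam d ((j : ℝ) + 1) H with hS
    have hSle : Submodule.span ℚ S ≤ MvPolynomial.restrictTotalDegree (Fin n) ℚ d := by
      rw [Submodule.span_le]
      rintro _ ⟨P, hP, rfl⟩
      rw [SetLike.mem_coe, MvPolynomial.mem_restrictTotalDegree]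
      exact (totalDegree_map_le' _ P).trans hP.1
    have hfin : FiniteDimensional ℚ (Submodule.span ℚ S) :=
      Submodule.finiteDimensional_of_le hSle
    have hr' : r ≤ finrank ℚ (Submodule.span ℚ S) := by
      by_contra hlt
      push Not at hlt
      obtain ⟨P, hP, hPn⟩ := hW (Submodule.span ℚ S) hSle (by omega)
      exact hPn (Submodule.subset_span ⟨P, hP, rfl⟩)
    obtain ⟨v, hvS, hvli⟩ := exists_li S hfin _ hr'
    choose p hp hpv using hvS
    refine ⟨p, hp, ?_⟩
    have : (fun s => MvPolynomial.map (Int.castRingHom ℚ) (p s)) = v := by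
      funext s
      exact hpv s
    rw [this]
    exact hvli
  choose Hs hHs p hpE hpli using hstep
  obtain ⟨H, hH'⟩ : ∃ H : ℕ → ℝ, H = fun t => max (Hs t) ((t : ℝ) + 2) := ⟨_, rfl⟩
  have hH : ∀ t, 2 ≤ H t := fun t => by rw [hH']; exact (hHs t).trans (le_max_left _ _)
  have hHsH : ∀ t, Hs t ≤ H t := fun t => by rw [hH']; exact le_max_left _ _
  have htH : ∀ t : ℕ, (t : ℝ) + 2 ≤ H t := fun t => by rw [hH']; exact le_max_right _ _
  obtain ⟨P⟩ := hPKG H hH
  have hHpow : ∀ j (c : ℕ), 1 ≤ H j ^ c := fun j c => one_le_pow₀ (by linarith [hH j])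
  have hBd : ∀ (s : Fin r) (m : Fin n →₀ ℕ), P.Bd (fun j => (p j s).coeff m) := by
    intro s m
    apply P.bd_of_le 1
    intro j
    rw [pow_one]
    exact ((hpE j s).2.1 m).trans (hHsH j)
  -- independence of the coefficient vectors over F
  have hLI := hMNR H P r (Mon n d) (fun j s m => (p j s).coeff (fs m))
    (fun s m => hBd s (fs m)) (by
      intro j
      have h1 := li_coeff (fun s => MvPolynomial.map (Int.castRingHom ℚ) (p j s))
        (fun s => (totalDegree_map_le' _ _).trans (hpE j s).1) (hpli j)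
      have h2 : (fun (s : Fin r) (m : Mon n d) => (((p j s).coeff (fs m) : ℤ) : ℚ)) =
          fun s m => (MvPolynomial.map (Int.castRingHom ℚ) (p j s)).coeff (fs m) := by
        funext s m
        rw [MvPolynomial.coeff_map]
        simp
      rw [h2]
      exact h1)
  -- the residues of the polynomials
  have hev : ∀ s : Fin r, ∃ Q' : MvPolynomial (Fin n) P.kk, Q'.totalDegree ≤ d ∧
      (∀ m : Fin n →₀ ℕ, ((Q'.coeff m : P.kk) : P.F) = P.evZ (fun j => (p j s).coeff m)) ∧
      MvPolynomial.aeval (fun i => P.cst (lam i)) Q' = 0 := by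
    intro s
    obtain ⟨Q', hd', hc', hx'⟩ := hEVP H P (Fin n) d 1 (fun j => p j s) (fun j => (hpE j s).1)
      (fun j m => by rw [pow_one]; exact ((hpE j s).2.1 m).trans (hHsH j))
    refine ⟨Q', hd', hc', ?_⟩
    obtain ⟨hmem, hval⟩ := hx' (fun _ i => lam i) (fun i => P.const_mem (lam i))
    have e1 : (fun i => P.cst (lam i)) = fun i => P.ev (fun _ => lam i) := rfl
    rw [e1, hval, P.ev_eq_zero hmem]
    intro c
    have hge := Nat.hyperfilter_le_atTop (pow_le_of_max Hs hHs c)
    filter_upwards [hge] with j hj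
    have h1 := (hpE j s).2.2
    have h2 : H j ^ c ≤ Hs j ^ ((j : ℝ) + 1) := by
      rw [hH']
      exact hj
    calc ‖MvPolynomial.aeval lam (p j s)‖ * H j ^ c
        ≤ ‖MvPolynomial.aeval lam (p j s)‖ * Hs j ^ ((j : ℝ) + 1) :=
          mul_le_mul_of_nonneg_left h2 (norm_nonneg _)
      _ ≤ 1 := by rw [mul_comm]; exact h1.le
  choose Q' hQd hQc hQ0 using hev
  -- transfer to kb
  set Q : Fin r → MvPolynomial (Fin n) P.kb :=
    fun s => MvPolynomial.map (algebraMap P.kk P.kb) (Q' s) with hQ
  have hQdeg : ∀ s, (Q s).totalDegree ≤ d := fun s => (totalDegree_map_le' _ _).trans (hQd s)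
  have hQcoeff : ∀ s m, (((Q s).coeff m : P.kb) : P.F) = P.evZ (fun j => (p j s).coeff m) := by
    intro s m
    rw [hQ]
    simp only
    rw [MvPolynomial.coeff_map, ← hQc s m]
    rfl
  have hQval : ∀ s, MvPolynomial.aeval (fun i => P.cst (lam i)) (Q s) = 0 := by
    intro s
    rw [hQ]
    simp only
    rw [MvPolynomial.aeval_map_algebraMap]
    exact hQ0 s
  have hQli : LinearIndependent P.kb Q := by
    rw [Fintype.linearIndependent_iff] at hLI ⊢
    intro g hg s
    have h1 : ∑ s, (g s : P.F) • (fun m : Mon n d => P.evZ (fun j => (p j s).coeff (fs m))) = 0 := by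
      funext m
      rw [Finset.sum_apply, Pi.zero_apply]
      have h2 := congrArg (fun q => ((MvPolynomial.coeff (fs m) q : P.kb) : P.F)) hg
      simp only [MvPolynomial.coeff_zero, ZeroMemClass.coe_zero] at h2
      rw [← h2, MvPolynomial.coeff_sum]
      rw [AddSubmonoidClass.coe_finsetSum]
      apply Finset.sum_congr rfl
      intro s _
      rw [MvPolynomial.coeff_smul, Pi.smul_apply, smul_eq_mul, smul_eq_mul, ← hQcoeff]
      rfl
    have h3 := hLI (fun s => (g s : P.F)) h1 s
    exact Subtype.ext h3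
  -- count
  have hBFx := hBFF hBF n lam hlam halg H P
  have hHRP := hFHR hHRA r0 (fun k => lam (σ k)) (fun k => halg (σ k)) hσ H htH P
  have hbound := hlb hSPC P.kb P.F n r0 (fun j => P.cst (lam j)) (fun k => P.cst (lam (σ k)))
    hBFx hHRP (fun k => Submodule.subset_span ⟨(σ k).succ, by rw [Fin.cons_succ]⟩) d0
  rw [← hd, ← hB] at hbound
  have hker := count_le n d r (fun j => P.cst (lam j)) Q hQdeg hQval hQli
  have hle := finrank_restrict_le P.kb n d hSUMA
  omega

end

end Pool.Agent.H72.SBP
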