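import Pool.Agent.H72.SBP.EXS2
import Pool.Agent.H72.SBP.SBP
import Pool.Agent.H62.BF.ESF

open Finset Filter
open Pool.Agent.H72.BF

namespace Pool.Agent.H72.SBP

open Pool.Agent.H62.BF (ultra_pigeon colour_core relD_comb EB red evZ_comb exch_indep sec)

/-- THEOREM: exceptional subspaces for pairs, with the square root bound -/
def ExcSub2 : Prop := ∀ d M : ℕ, ∃ s : ℕ, ∀ (mu : Fin M → ℂ),
    LinearIndependent ℚ mu → (∀ j, IsAlgebraic ℚ (Complex.exp (mu j))) → ∀ r : ℕ,
    r + 1 = Module.finrank ℚ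
      (Submodule.span ℚ (insert (2 * Real.pi * Complex.I) (Set.range mu))) →
    ∃ C : ℝ, 0 < C ∧ ∀ H : ℝ, 2 ≤ H → ∀ v : Fin M → ℤ, v ≠ 0 → (∀ i, |(v i : ℝ)| ≤ H) →
    ∃ U : Fin s → Submodule ℚ (Fin M → ℚ),
      (∀ i, Module.finrank ℚ (U i) ≤ min d (Nat.sqrt (4 * d + 1) + (M - r) - 1) ∧
        (fun j => (v j : ℚ)) ∈ U i) ∧
      ∀ w : Fin M → ℤ, (∀ i, |(w i : ℝ)| ≤ H) → (∀ i, (fun j => (w j : ℚ)) ∉ U i) →
        ∀ P : MvPolynomial (Fin 2) ℤ, P ≠ 0 → P.totalDegree ≤ d →
          (∀ m : Fin 2 →₀ ℕ, |((P.coeff m : ℤ) : ℝ)| ≤ H) →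
          1 ≤ H ^ C * ‖MvPolynomial.aeval ![∑ j, (v j : ℂ) * mu j, ∑ j, (w j : ℂ) * mu j] P‖

/-- failure at exponent `C` with pivot `i0` -/
def BadE (d e M s N : ℕ) (mu : Fin (M + 1) → ℂ) (C : ℝ) (i0 : Fin (M + 1)) : Prop :=
  ∃ H : ℝ, 2 ≤ H ∧ ∃ v : Fin (M + 1) → ℤ, (∀ i, |(v i : ℝ)| ≤ H) ∧ v i0 ≠ 0 ∧
    ∃ w : Fin N → Fin (M + 1) → ℤ, (∀ i, EB d (M + 1) mu C H v (w i)) ∧
      ∀ U : Fin s → Submodule ℚ (Fin M → ℚ), (∀ l, Module.finrank ℚ (U l) ≤ e) →
        ∃ i, ∀ l, (fun k => (red i0 v (w i) k : ℚ)) ∉ U l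

theorem BadE_mono {d e M s N : ℕ} {mu : Fin (M + 1) → ℂ} {C C' : ℝ} {i0 : Fin (M + 1)}
    (hC : C' ≤ C) (h : BadE d e M s N mu C i0) : BadE d e M s N mu C' i0 := by
  obtain ⟨H, hH, v, hv, hv0, w, hw, hU⟩ := h
  refine ⟨H, hH, v, hv, hv0, w, fun i => ?_, hU⟩
  obtain ⟨h1, Q, h3, h4, h5, h6⟩ := hw i
  refine ⟨h1, Q, h3, h4, h5, lt_of_le_of_lt ?_ h6⟩
  exact mul_le_mul_of_nonneg_right
    (Real.rpow_le_rpow_of_exponent_le (by linarith) hC) (norm_nonneg _)

theorem esf_core (hEVP : T_EVP) (hMNR : T_MNR) (d e M s N : ℕ)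
    {H : ℕ → ℝ} (P : Pkg H) (mu : Fin (M + 1) → ℂ)
    (hEXS : ∀ (t : P.F) (y : Fin M → P.F),
      LinearIndependent P.kb (Fin.cons 1 (Fin.cons t y) : Fin (M + 2) → P.F) →
      Submodule.span P.kb (Set.range (Fin.cons 1 (Fin.cons t y) : Fin (M + 2) → P.F)) ≤
        Submodule.span P.kb (Set.range (Fin.cons 1 (fun k => P.cst (mu k)) :
          Fin (M + 2) → P.F)) →
      ∃ W : Fin s → Submodule P.kb (Fin M → P.kb), (∀ i, Module.finrank P.kb (W i) ≤ e) ∧
      ∀ v : Fin M → P.kb, RelD P.kb t d (∑ j, algebraMap P.kb P.F (v j) * y j) → ∃ i, v ∈ W i)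
    (hli : LinearIndependent P.kb
      (Fin.cons 1 (fun k => P.cst (mu k)) : Fin (M + 2) → P.F))
    (i0 : Fin (M + 1)) (v : ℕ → Fin (M + 1) → ℤ) (hvH : ∀ j i, |(v j i : ℝ)| ≤ H j)
    (hv0 : ∀ j, v j i0 ≠ 0)
    (w : ℕ → Fin N → Fin (M + 1) → ℤ)
    (hw : ∀ (j : ℕ) i, EB d (M + 1) mu ((j : ℝ) + 1) (H j) (v j) (w j i))
    (hcov : ∀ j, ∀ U : Fin s → Submodule ℚ (Fin M → ℚ), (∀ l, Module.finrank ℚ (U l) ≤ e) →
      ∃ i, ∀ l, (fun k => (red i0 (v j) (w j i) k : ℚ)) ∉ U l) : False := by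
  classical
  have hBv : ∀ k, P.Bd (fun j => v j k) := fun k =>
    P.bd_of_le 1 (fun j => by rw [pow_one]; exact hvH j k)
  have hBw : ∀ i k, P.Bd (fun j => w j i k) := fun i k =>
    P.bd_of_le 1 (fun j => by rw [pow_one]; exact (hw j i).1 k)
  let nu : Fin (M + 1) → P.kb := fun k =>
    algebraMap P.kk P.kb ⟨P.evZ (fun j => v j k), P.evZ_mem (hBv k)⟩
  have hnu : ∀ k, algebraMap P.kb P.F (nu k) = P.evZ (fun j => v j k) := fun k => rfl
  let β : Fin N → Fin (M + 1) → P.kb := fun i k =>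
    algebraMap P.kk P.kb ⟨P.evZ (fun j => w j i k), P.evZ_mem (hBw i k)⟩
  have hβ : ∀ i k, algebraMap P.kb P.F (β i k) = P.evZ (fun j => w j i k) := fun i k => rfl
  have hnu0 : nu i0 ≠ 0 := by
    intro h
    have h1 := congrArg (algebraMap P.kb P.F) h
    rw [hnu, map_zero] at h1
    exact P.evZ_ne_zero (hBv i0) hv0 h1
  set t : P.F := ∑ k, algebraMap P.kb P.F (nu k) * P.cst (mu k) with ht
  let β' : Fin N → Fin M → P.kb := fun i k =>
    nu i0 * β i (i0.succAbove k) - β i i0 * nu (i0.succAbove k)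
  have hB' : ∀ i k, P.Bd (fun j => red i0 (v j) (w j i) k) := fun i k =>
    (evZ_comb P (hBv i0) (hBw i (i0.succAbove k)) (hBw i i0) (hBv (i0.succAbove k))).1
  have hβ' : ∀ i k, algebraMap P.kb P.F (β' i k) = P.evZ (fun j => red i0 (v j) (w j i) k) := by
    intro i k
    have h1 := (evZ_comb P (hBv i0) (hBw i (i0.succAbove k)) (hBw i i0)
      (hBv (i0.succAbove k))).2
    change algebraMap P.kb P.F (nu i0 * β i (i0.succAbove k) - β i i0 * nu (i0.succAbove k)) =
      P.evZ (fun j => v j i0 * w j i (i0.succAbove k) - w j i i0 * v j (i0.succAbove k))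
    rw [h1, map_sub, map_mul, map_mul, hnu, hβ, hβ, hnu]
  -- sums
  have hsumO : ∀ u : ℕ → Fin (M + 1) → ℤ, (∀ k, P.Bd (fun j => u j k)) →
      (fun j => ∑ k, (u j k : ℂ) * mu k) ∈ P.O ∧
      P.ev (fun j => ∑ k, (u j k : ℂ) * mu k) = ∑ k, P.evZ (fun j => u j k) * P.cst (mu k) := by
    intro u hu
    have h1 : (fun j => ∑ k, (u j k : ℂ) * mu k) =
        ∑ k, ((fun j => (u j k : ℂ)) * (fun _ => mu k)) := by
      funext j
      rw [Finset.sum_apply]
      rfl
    rw [h1]
    refine ⟨P.O.sum_mem fun k _ => P.O.mul_mem (hu k) (P.const_mem (mu k)), ?_⟩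
    rw [P.ev_sum _ _ (fun k _ => P.O.mul_mem (hu k) (P.const_mem (mu k)))]
    refine Finset.sum_congr rfl fun k _ => ?_
    rw [P.ev_mul (hu k) (P.const_mem (mu k))]
    rfl
  choose hwb Q hQ0 hQd hQc hQv using hw
  -- the relations
  have hrel : ∀ i : Fin N, RelD P.kb t d (∑ k, algebraMap P.kb P.F (β i k) * P.cst (mu k)) := by
    intro i
    have h1 := hsumO v hBv
    have h2 := hsumO (fun j => w j i) (hBw i)
    have hx : ∀ x : Fin 2, (fun j => (![∑ k, (v j k : ℂ) * mu k, ∑ k, (w j i k : ℂ) * mu k] :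
        Fin 2 → ℂ) x) ∈ P.O := by
      intro x
      fin_cases x
      · exact h1.1
      · exact h2.1
    have hev : (fun x => P.ev (fun j => (![∑ k, (v j k : ℂ) * mu k,
        ∑ k, (w j i k : ℂ) * mu k] : Fin 2 → ℂ) x)) =
        ![t, ∑ k, algebraMap P.kb P.F (β i k) * P.cst (mu k)] := by
      funext x
      fin_cases x
      · exact h1.2
      · exact h2.2
    obtain ⟨Q', h2, h3, h4⟩ := Pool.Agent.H29.BF.seq_rel hEVP P d (fun j => Q j i)
      (fun j => hQ0 j i) (fun j => hQd j i) (fun j => hQc j i) _ hx (fun j => hQv j i)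
    rw [hev] at h4
    exact ⟨Q', h2, h3, h4⟩
  have hrel' : ∀ i : Fin N, RelD P.kb t d
      (∑ k, algebraMap P.kb P.F (β' i k) * P.cst (mu (i0.succAbove k))) := by
    intro i
    have h1 := relD_comb (hrel i) (nu i0) (β i i0) hnu0
    have h2 : algebraMap P.kb P.F (nu i0) * (∑ k, algebraMap P.kb P.F (β i k) * P.cst (mu k)) -
        algebraMap P.kb P.F (β i i0) * t =
        ∑ k, algebraMap P.kb P.F (β' i k) * P.cst (mu (i0.succAbove k)) := by
      rw [ht, Fin.sum_univ_succAbove _ i0, Fin.sum_univ_succAbove _ i0, mul_add, mul_add,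
        Finset.mul_sum, Finset.mul_sum]
      have h3 : ∑ k, algebraMap P.kb P.F (β' i k) * P.cst (mu (i0.succAbove k)) =
          ∑ k, algebraMap P.kb P.F (nu i0) * (algebraMap P.kb P.F (β i (i0.succAbove k)) *
            P.cst (mu (i0.succAbove k))) -
          ∑ k, algebraMap P.kb P.F (β i i0) * (algebraMap P.kb P.F (nu (i0.succAbove k)) *
            P.cst (mu (i0.succAbove k))) := by
        rw [← Finset.sum_sub_distrib]
        refine Finset.sum_congr rfl fun k _ => ?_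
        change algebraMap P.kb P.F (nu i0 * β i (i0.succAbove k) -
          β i i0 * nu (i0.succAbove k)) * P.cst (mu (i0.succAbove k)) = _
        rw [map_sub, map_mul, map_mul]
        ring
      rw [h3]
      ring
    rw [h2] at h1
    exact h1
  obtain ⟨W, hWd, hW⟩ := hEXS t (fun k => P.cst (mu (i0.succAbove k)))
    (exch_indep hli nu i0 hnu0) (by
      rw [Submodule.span_le]
      rintro _ ⟨k, rfl⟩
      refine Fin.cases ?_ (fun k => ?_) k
      · rw [Fin.cons_zero]
        exact Submodule.subset_span ⟨0, rfl⟩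
      refine Fin.cases ?_ (fun k => ?_) k
      · rw [Fin.cons_succ, Fin.cons_zero, ht]
        refine Submodule.sum_mem _ fun k _ => ?_
        rw [← Algebra.smul_def]
        exact Submodule.smul_mem _ _ (Submodule.subset_span ⟨k.succ, by rw [Fin.cons_succ]⟩)
      · rw [Fin.cons_succ, Fin.cons_succ]
        exact Submodule.subset_span ⟨(i0.succAbove k).succ, by rw [Fin.cons_succ]⟩)
  exact colour_core hMNR e M s N P (fun j i => red i0 (v j) (w j i)) hB' W hWd β' hβ'
    (fun i => hW (β' i) (hrel' i)) hcov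

theorem esf2 (hBF : T_BF) (hPKG : T_PKG) (hBFF : T_BFF) (hEVP : T_EVP) (hMNR : T_MNR)
    (hCVR : T_CVR) (hSPT : T_SPT) (hSPC : T_SPC) (hCRT : T_CRT) (hFHR : T_FHR)
    (hHRA : HRA.HRA) : ExcSub2 := by
  classical
  intro d M
  rcases Nat.eq_zero_or_pos d with hd0 | hd
  · subst hd0
    refine ⟨0, fun mu _ _ _ _ => ⟨1, one_pos, fun H hH v _ _ => ⟨fun i => i.elim0, fun i => i.elim0,
      fun w _ _ P hP hPd _ => ?_⟩⟩⟩
    have h1 := (MvPolynomial.totalDegree_eq_zero_iff_eq_C (p := P)).mp (Nat.le_zero.mp hPd)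
    rw [h1]
    have h2 : P.coeff 0 ≠ 0 := by
      intro h
      rw [h, map_zero] at h1
      exact hP h1
    rw [MvPolynomial.aeval_C, algebraMap_int_eq, Int.coe_castRingHom, Complex.norm_intCast,
      Real.rpow_one]
    have h3 : (1:ℝ) ≤ |((MvPolynomial.coeff 0 P : ℤ) : ℝ)| := by
      exact_mod_cast Int.one_le_abs h2
    nlinarith
  cases M with
  | zero =>
    refine ⟨0, fun mu _ _ _ _ => ⟨1, one_pos, fun H hH v hv _ => ?_⟩⟩
    exact absurd (Subsingleton.elim v 0) hv
  | succ M =>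
    obtain ⟨s, hs⟩ := exs2 hCVR hSPT d M
    refine ⟨s, fun mu hli hmu r hr => ?_⟩
    obtain ⟨σ, hσ⟩ := exists_mu (M + 1) r mu hr
    obtain ⟨e, he⟩ : ∃ e, e = min (d - 1) (Nat.sqrt (4 * d + 1) + (M + 1 - r) - 2) := ⟨_, rfl⟩
    have hsq : 2 ≤ Nat.sqrt (4 * d + 1) := by
      rw [Nat.le_sqrt]
      omega
    have he1 : e + 1 = min d (Nat.sqrt (4 * d + 1) + (M + 1 - r) - 1) := by omega
    rw [← he1]
    obtain ⟨N, hN⟩ := hCRT s e
    by_contra hcon
    push Not at hcon
    have h1 : ∀ n : ℕ, ∃ i0, BadE d e M s N mu ((n : ℝ) + 1) i0 := by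
      intro n
      obtain ⟨H, hH2, v, hv0, hvH, hH⟩ := hcon ((n : ℝ) + 1) (by positivity)
      obtain ⟨i0, hi0⟩ := Function.ne_iff.mp hv0
      refine ⟨i0, H, hH2, v, hvH, hi0, ?_⟩
      have h2 : ¬ ∃ U : Fin s → Submodule ℚ (Fin M → ℚ),
          (∀ i, Module.finrank ℚ (U i) ≤ e) ∧
          ∀ b ∈ {b : Fin M → ℚ | ∃ w : Fin (M + 1) → ℤ, (b = fun k => (red i0 v w k : ℚ)) ∧
            EB d (M + 1) mu ((n : ℝ) + 1) H v w}, ∃ l, b ∈ U l := by
        rintro ⟨U, hU1, hU2⟩
        obtain ⟨w, hw1, hw2, P, hP0, hPd, hPc, hPv⟩ := hH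
          (fun l => Submodule.span ℚ {(fun j => (v j : ℚ) : Fin (M + 1) → ℚ)} ⊔
            (U l).map (sec i0)) (by
          intro l
          refine ⟨?_, Submodule.mem_sup_left (Submodule.mem_span_singleton_self _)⟩
          refine le_trans (Submodule.finrank_add_le_finrank_add_finrank _ _) ?_
          have h3 := finrank_span_le_card (R := ℚ)
            ({(fun j => (v j : ℚ) : Fin (M + 1) → ℚ)} : Set (Fin (M + 1) → ℚ))
          have h4 : Module.finrank ℚ ((U l).map (sec i0)) ≤ Module.finrank ℚ (U l) :=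
            Submodule.finrank_map_le _ _
          have h5 := hU1 l
          simp only [Set.toFinset_singleton, Finset.card_singleton] at h3
          omega)
        obtain ⟨l, hl⟩ := hU2 _ ⟨w, rfl, hw1, P, hP0, hPd, hPc, hPv⟩
        apply hw2 l
        have hvq : (v i0 : ℚ) ≠ 0 := by exact_mod_cast hi0
        have h6 : (fun j => (w j : ℚ)) = ((w i0 : ℚ) / v i0) • (fun j => (v j : ℚ)) +
            (1 / (v i0 : ℚ)) • sec i0 (fun k => (red i0 v w k : ℚ)) := by
          funext k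
          refine Fin.succAboveCases i0 ?_ (fun k => ?_) k
          · rw [Pi.add_apply, Pi.smul_apply, Pi.smul_apply]
            change (w i0 : ℚ) = (w i0 : ℚ) / v i0 * v i0 + 1 / (v i0 : ℚ) *
              (i0.insertNth (α := fun _ => ℚ) 0 (fun k => (red i0 v w k : ℚ)) : Fin (M + 1) → ℚ) i0
            rw [Fin.insertNth_apply_same]
            field_simp
            ring
          · rw [Pi.add_apply, Pi.smul_apply, Pi.smul_apply]
            change (w (i0.succAbove k) : ℚ) = (w i0 : ℚ) / v i0 * v (i0.succAbove k) +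
              1 / (v i0 : ℚ) * (i0.insertNth (α := fun _ => ℚ) 0
                (fun k => (red i0 v w k : ℚ)) : Fin (M + 1) → ℚ) (i0.succAbove k)
            rw [Fin.insertNth_apply_succAbove, red]
            push_cast
            field_simp
            ring
        rw [h6]
        exact Submodule.add_mem_sup
          (Submodule.smul_mem _ _ (Submodule.mem_span_singleton_self _))
          (Submodule.smul_mem _ _ (Submodule.mem_map_of_mem hl))
      have h3 := mt (hN ℚ M _) h2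
      push Not at h3
      obtain ⟨b, hb1, hb2⟩ := h3
      choose w hw1 hw2 using hb1
      refine ⟨w, hw2, fun U hU => ?_⟩
      obtain ⟨i, hi⟩ := hb2 U hU
      refine ⟨i, fun l => ?_⟩
      rw [← hw1 i]
      exact hi l
    have h2 : ∃ i0, ∀ n : ℕ, BadE d e M s N mu ((n : ℝ) + 1) i0 := by
      by_contra hno
      push Not at hno
      choose f hf using hno
      obtain ⟨i0, hB⟩ := h1 (Finset.univ.sup f)
      refine hf i0 (BadE_mono ?_ hB)
      have h4 : f i0 ≤ Finset.univ.sup f := Finset.le_sup (f := f) (Finset.mem_univ _)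
      have h5 : (f i0 : ℝ) ≤ ((Finset.univ.sup f : ℕ) : ℝ) := by exact_mod_cast h4
      linarith
    obtain ⟨i0, hB⟩ := h2
    choose H' hH2' v' hvH' hv0' w' hw' hcov' using hB
    obtain ⟨q, hq⟩ : ∃ q : ℕ → ℕ, q = fun j => (j + 2) * (j + 1) := ⟨_, rfl⟩
    obtain ⟨H, hH⟩ : ∃ H : ℕ → ℝ, H = fun j => max (H' (q j)) ((j : ℝ) + 2) := ⟨_, rfl⟩
    have hH2 : ∀ j, 2 ≤ H j := fun j => by
      rw [hH]
      exact (hH2' (q j)).trans (le_max_left _ _)
    have hHle : ∀ j, H' (q j) ≤ H j := fun j => by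
      rw [hH]
      exact le_max_left _ _
    have htH : ∀ j : ℕ, (j : ℝ) + 2 ≤ H j := fun j => by
      rw [hH]
      exact le_max_right _ _
    have hpow : ∀ j : ℕ, H j ^ ((j : ℝ) + 1) ≤ H' (q j) ^ ((q j : ℝ) + 1) := by
      intro j
      have h2H := hH2' (q j)
      have h5 : H j ≤ H' (q j) ^ ((j : ℝ) + 2) := by
        rw [hH]
        refine max_le ?_ ?_
        · calc H' (q j) = H' (q j) ^ (1 : ℝ) := (Real.rpow_one _).symm
            _ ≤ H' (q j) ^ ((j : ℝ) + 2) :=
              Real.rpow_le_rpow_of_exponent_le (by linarith) (by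
                have : (0 : ℝ) ≤ j := Nat.cast_nonneg j
                linarith)
        · have h6 : ((j : ℝ) + 2) ≤ 2 ^ ((j : ℝ) + 2) := by
            have h7 : j + 2 ≤ 2 ^ (j + 2) := Nat.lt_two_pow_self.le
            have h8 : (2 : ℝ) ^ ((j : ℝ) + 2) = 2 ^ (j + 2 : ℕ) := by
              rw [← Real.rpow_natCast]
              push_cast
              rfl
            rw [h8]
            exact_mod_cast h7
          refine h6.trans ?_
          exact Real.rpow_le_rpow (by norm_num) h2H (by positivity)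
      calc H j ^ ((j : ℝ) + 1) ≤ (H' (q j) ^ ((j : ℝ) + 2)) ^ ((j : ℝ) + 1) :=
            Real.rpow_le_rpow (by linarith [hH2 j]) h5 (by positivity)
        _ = H' (q j) ^ (((j : ℝ) + 2) * ((j : ℝ) + 1)) := by
            rw [Real.rpow_mul (by linarith)]
        _ ≤ H' (q j) ^ ((q j : ℝ) + 1) := by
            refine Real.rpow_le_rpow_of_exponent_le (by linarith) ?_
            rw [hq]
            push_cast
            linarith
    obtain ⟨P⟩ := hPKG H hH2
    have hli3 := hBFF hBF (M + 1) mu hli hmu H P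
    have hHRP := hFHR hHRA r (fun k => mu (σ k)) (fun k => hmu (σ k)) hσ H htH P
    refine esf_core hEVP hMNR d e M s N P mu ?_ hli3 i0 (fun j => v' (q j))
      (fun j i => (hvH' (q j) i).trans (hHle j)) (fun j => hv0' (q j)) (fun j => w' (q j)) ?_
      (fun j => hcov' (q j))
    · intro t y hty hspan
      obtain ⟨W, hW1, hW2⟩ := hs P.kb P.F t y hty
        (Nat.sqrt (4 * d + 1) + (M + 1 - r)) (by
          intro W hW h1 htW hWle hrel
          have ht : Transcendental P.kb t := by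
            intro halg
            have hint : IsIntegral P.kb t := halg.isIntegral
            have hdeg : (minpoly P.kb t).degree = 1 :=
              IsAlgClosed.degree_eq_one_of_irreducible P.kb (minpoly.irreducible hint)
            obtain ⟨c, hc⟩ := minpoly.mem_range_of_degree_eq_one P.kb t hdeg
            have hg := Fintype.linearIndependent_iff.1 hty (Fin.cons c (Fin.cons (-1) 0)) (by
              rw [Fin.sum_univ_succ, Fin.sum_univ_succ]
              simp only [Fin.cons_zero, Fin.cons_succ, Pi.zero_apply, zero_smul,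
                Finset.sum_const_zero]
              rw [Algebra.smul_def, hc]
              simp) 1
            have : (-1 : P.kb) = 0 := hg
            simp at this
          exact exc_dim hSPC (fun k => P.cst (mu k)) hli3 σ hHRP t ht d W hW h1 htW
            (hWle.trans hspan) hrel)
      refine ⟨W, fun i => ?_, hW2⟩
      rw [he]
      exact hW1 i
    · intro j i
      obtain ⟨g1, Q, g2, g3, g4, g5⟩ := hw' (q j) i
      refine ⟨fun k => (g1 k).trans (hHle j), Q, g2, g3, fun m => (g4 m).trans (hHle j), ?_⟩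
      exact lt_of_le_of_lt (mul_le_mul_of_nonneg_right (hpow j) (norm_nonneg _)) g5

end Pool.Agent.H72.SBP
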