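import Pool.Agent.H72.SBP.Deg5

open Module

namespace Pool.Agent.H72.SBP

open Pool.Agent.H72.BF (T_SPC RelD)

noncomputable section

variable {K F : Type} [Field K] [Field F] [Algebra K F]

theorem mvK_eq {n l c : ℕ} (x : Fin n → F) (A : Fin (n + 1) → Matrix (Fin l) (Fin c) K)
    (p : Fin l) (j : Fin c) :
    MvK x A p j = ∑ k, (Fin.cons 1 x : Fin (n + 1) → F) k * algebraMap K F (A k p j) := by
  rw [Fin.sum_univ_succ]
  simp only [Fin.cons_zero, Fin.cons_succ, one_mul, MvK]

/-- the half rank property passes to independent tuples of linear combinations -/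
theorem hrp_trans {n m : ℕ} (x : Fin n → F) (y : Fin m → F) (hx : HRP K F x)
    (a : Fin (m + 1) → Fin (n + 1) → K)
    (hy : ∀ i, (Fin.cons 1 y : Fin (m + 1) → F) i =
      ∑ k, (Fin.cons 1 x : Fin (n + 1) → F) k * algebraMap K F (a i k))
    (hind : LinearIndependent K a) : HRP K F y := by
  classical
  intro l c B hB
  obtain ⟨A, hA⟩ : ∃ A : Fin (n + 1) → Matrix (Fin l) (Fin c) K,
    A = fun k => ∑ i, a i k • B i := ⟨_, rfl⟩
  have hAapp : ∀ k p j, A k p j = ∑ i, a i k * B i p j := by
    intro k p j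
    rw [hA]
    simp only [Matrix.sum_apply, Matrix.smul_apply, smul_eq_mul]
  have hM : MvK y B = MvK x A := by
    funext p j
    rw [mvK_eq, mvK_eq]
    simp only [hAapp, map_sum, map_mul, hy, Finset.mul_sum, Finset.sum_mul]
    rw [Finset.sum_comm]
    refine Finset.sum_congr rfl fun k _ => Finset.sum_congr rfl fun i _ => ?_
    ring
  -- a left inverse
  obtain ⟨L, hL⟩ := LinearMap.exists_leftInverse_of_injective
    (Fintype.linearCombination K a) (LinearMap.ker_eq_bot.2
      (hind.fintypeLinearCombination_injective))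
  have hLa : ∀ i, L (a i) = Pi.single i 1 := by
    intro i
    have h1 : Fintype.linearCombination K a (Pi.single i 1) = a i := by
      rw [Fintype.linearCombination_apply_single, one_smul]
    have h2 := LinearMap.congr_fun hL (Pi.single i 1)
    rw [LinearMap.comp_apply, h1] at h2
    exact h2
  have hBA : ∀ i0 : Fin (m + 1), B i0 = ∑ k, L (Pi.single k 1) i0 • A k := by
    intro i0
    have h1 : ∀ i, ∑ k, L (Pi.single k 1) i0 * a i k = if i = i0 then 1 else 0 := by
      intro i
      have h3 : a i = ∑ k, a i k • (Pi.single k (1 : K) : Fin (n + 1) → K) := by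
        funext k'
        rw [Finset.sum_apply, Finset.sum_eq_single k']
        · simp
        · intro k _ hk
          simp [Ne.symm hk]
        · intro h
          exact absurd (Finset.mem_univ _) h
      have h2 := congrFun (hLa i) i0
      rw [h3, map_sum, Finset.sum_apply] at h2
      simp only [map_smul, Pi.smul_apply, smul_eq_mul] at h2
      rw [Pi.single_apply] at h2
      have h5 : (if i = i0 then (1 : K) else 0) = if i0 = i then 1 else 0 := by
        simp only [eq_comm]
      rw [h5, ← h2]
      exact Finset.sum_congr rfl fun k _ => mul_comm _ _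
    ext p j
    rw [Matrix.sum_apply]
    simp only [Matrix.smul_apply, smul_eq_mul, hAapp, Finset.mul_sum]
    rw [Finset.sum_comm]
    have h4 : ∀ i, ∑ k, L (Pi.single k 1) i0 * (a i k * B i p j) =
        (if i = i0 then 1 else 0) * B i p j := by
      intro i
      rw [← h1 i, Finset.sum_mul]
      exact Finset.sum_congr rfl fun k _ => by ring
    rw [Finset.sum_congr rfl fun i _ => h4 i]
    simp
  have hXi : ∀ U, XiK A U = XiK B U := by
    intro U
    ext u
    simp only [XiK, Submodule.mem_iInf, Submodule.mem_comap, Matrix.vecMulLinear_apply]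
    constructor
    · intro h i
      rw [hBA i]
      have h1 : Matrix.vecMul u (∑ k, L (Pi.single k 1) i • A k) =
          ∑ k, L (Pi.single k 1) i • Matrix.vecMul u (A k) := by
        rw [Matrix.vecMul_sum]
        exact Finset.sum_congr rfl fun k _ => by rw [Matrix.vecMul_smul]
      rw [h1]
      exact Submodule.sum_mem _ fun k _ => Submodule.smul_mem _ _ (h k)
    · intro h k
      rw [hA]
      have h1 : Matrix.vecMul u (∑ i, a i k • B i) =
          ∑ i, a i k • Matrix.vecMul u (B i) := by
        rw [Matrix.vecMul_sum]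
        exact Finset.sum_congr rfl fun k _ => by rw [Matrix.vecMul_smul]
      simp only
      rw [h1]
      exact Submodule.sum_mem _ fun i _ => Submodule.smul_mem _ _ (h i)
  rw [hM]
  refine hx l c A fun U => ?_
  rw [hXi]
  exact hB U

/-- a basis beginning with a given nonzero vector -/
theorem exists_li_head (W : Submodule K F) [FiniteDimensional K W] (h1 : (1 : F) ∈ W) :
    ∀ p : ℕ, p + 1 ≤ finrank K W → ∃ v : Fin (p + 1) → W, v 0 = ⟨1, h1⟩ ∧
      LinearIndependent K v := by
  intro p
  induction p with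
  | zero =>
    intro _
    refine ⟨fun _ => ⟨1, h1⟩, rfl, ?_⟩
    have : Unique (Fin (0 + 1)) := inferInstanceAs (Unique (Fin 1))
    rw [linearIndependent_unique_iff]
    intro h
    exact one_ne_zero (congrArg Subtype.val h)
  | succ p ih =>
    intro hp
    obtain ⟨v, hv0, hv⟩ := ih (by omega)
    obtain ⟨x, hx⟩ := exists_linearIndependent_snoc_of_lt_finrank hv (by omega)
    refine ⟨Fin.snoc v x, ?_, hx⟩
    have h2 : (0 : Fin (p + 1 + 1)) = Fin.castSucc 0 := rfl
    rw [h2, Fin.snoc_castSucc, hv0]

/-- a linear space of functions of degree at most `d` over `t` in the span of `1` and `xs` -/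
theorem exc_dim [CharZero K] [IsAlgClosed K] (hSPC : T_SPC) {N r : ℕ} (xs : Fin N → F)
    (hli : LinearIndependent K (Fin.cons 1 xs : Fin (N + 1) → F)) (σ : Fin r → Fin N)
    (hσ : HRP K F (fun k => xs (σ k))) (t : F) (ht : Transcendental K t) (d : ℕ)
    (W : Submodule K F) (hW : FiniteDimensional K W) (h1 : (1 : F) ∈ W) (htW : t ∈ W)
    (hWle : W ≤ Submodule.span K (Set.range (Fin.cons 1 xs : Fin (N + 1) → F)))
    (hrel : ∀ z ∈ W, RelD K t d z) : finrank K W ≤ Nat.sqrt (4 * d + 1) + (N - r) := by
  classical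
  obtain ⟨L, hL⟩ : ∃ L : Submodule K F,
    L = Submodule.span K (Set.range (Fin.cons 1 xs : Fin (N + 1) → F)) := ⟨_, rfl⟩
  obtain ⟨x', hx'⟩ : ∃ x' : Fin r → F, x' = fun k => xs (σ k) := ⟨_, rfl⟩
  obtain ⟨L', hL'⟩ : ∃ L' : Submodule K F,
    L' = Submodule.span K (Set.range (Fin.cons 1 x' : Fin (r + 1) → F)) := ⟨_, rfl⟩
  rw [← hL] at hWle
  rw [← hx'] at hσ
  have h1L' : (1 : F) ∈ L' := by
    rw [hL']
    exact Submodule.subset_span ⟨0, rfl⟩
  have hle' : L' ≤ L := by
    rw [hL', hL, Submodule.span_le]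
    rintro _ ⟨k, rfl⟩
    refine Fin.cases ?_ (fun k => ?_) k
    · rw [Fin.cons_zero]
      exact Submodule.subset_span ⟨0, rfl⟩
    · rw [Fin.cons_succ, hx']
      exact Submodule.subset_span ⟨(σ k).succ, by rw [Fin.cons_succ]⟩
  have hfL : FiniteDimensional K L := by
    rw [hL]
    exact FiniteDimensional.span_of_finite K (Set.finite_range _)
  have hfL' : FiniteDimensional K L' := Submodule.finiteDimensional_of_le hle'
  have hdL : finrank K L = N + 1 := by
    rw [hL, finrank_span_eq_card hli, Fintype.card_fin]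
  have hdL' : r + 1 ≤ finrank K L' := by
    have h3 := prd K F r x' hσ 1 (fun _ => (1 : F)) (by
      rw [linearIndependent_unique_iff]
      exact one_ne_zero)
    have h4 : Submodule.span K (Set.range (fun _ : Fin 1 => (1 : F))) = 1 := by
      rw [Set.range_const, Submodule.one_eq_span]
    rw [h4, mul_one, ← hL'] at h3
    omega
  have hsup : finrank K (W ⊔ L' : Submodule K F) ≤ N + 1 := by
    rw [← hdL]
    exact Submodule.finrank_mono (sup_le hWle hle')
  have hsum := Submodule.finrank_sup_add_finrank_inf_eq W L'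
  have hle2 := Submodule.finrank_mono hle'
  have hW' : FiniteDimensional K (W ⊓ L' : Submodule K F) :=
    Submodule.finiteDimensional_of_le (inf_le_left : W ⊓ L' ≤ W)
  have h1W' : (1 : F) ∈ W ⊓ L' := ⟨h1, h1L'⟩
  have hpos : 0 < finrank K (W ⊓ L' : Submodule K F) := by
    rw [Module.finrank_pos_iff_exists_ne_zero]
    exact ⟨⟨1, h1W'⟩, fun h => one_ne_zero (congrArg Subtype.val h)⟩
  obtain ⟨p, hp⟩ : ∃ p, finrank K (W ⊓ L' : Submodule K F) = p + 1 :=
    ⟨finrank K (W ⊓ L' : Submodule K F) - 1, by omega⟩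
  obtain ⟨v, hv0, hv⟩ := exists_li_head (W ⊓ L') h1W' p hp.ge
  obtain ⟨y, hy⟩ : ∃ y : Fin p → F, y = fun k => (v k.succ).1 := ⟨_, rfl⟩
  have hcons : ∀ i, (Fin.cons 1 y : Fin (p + 1) → F) i = (v i).1 := by
    intro i
    refine Fin.cases ?_ (fun i => ?_) i
    · rw [Fin.cons_zero, hv0]
    · rw [Fin.cons_succ, hy]
  have hcoef : ∀ i, ∃ a : Fin (r + 1) → K, (v i).1 =
      ∑ k, (Fin.cons 1 x' : Fin (r + 1) → F) k * algebraMap K F (a k) := by
    intro i
    have h3 : ∀ z ∈ L', z ∈ Submodule.span K (Set.range (Fin.cons 1 x' : Fin (r + 1) → F)) := by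
      intro z hz
      rwa [hL'] at hz
    replace h3 := h3 (v i).1 (v i).2.2
    rw [Submodule.mem_span_range_iff_exists_fun] at h3
    obtain ⟨a, ha⟩ := h3
    refine ⟨a, ?_⟩
    rw [← ha]
    refine Finset.sum_congr rfl fun k _ => ?_
    rw [Algebra.smul_def, mul_comm]
  choose a ha using hcoef
  have hind : LinearIndependent K a := by
    rw [Fintype.linearIndependent_iff] at hv ⊢
    intro g hg
    refine hv g ?_
    apply Subtype.ext
    rw [AddSubmonoidClass.coe_finsetSum]
    simp only [SetLike.val_smul, ZeroMemClass.coe_zero]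
    simp only [ha, Algebra.smul_def, Finset.mul_sum]
    rw [Finset.sum_comm]
    refine Finset.sum_eq_zero fun k _ => ?_
    have h3 := congrArg (algebraMap K F) (congrFun hg k)
    rw [Finset.sum_apply, map_sum] at h3
    simp only [Pi.smul_apply, smul_eq_mul, map_mul, Pi.zero_apply, map_zero] at h3
    have h4 : ∑ i, algebraMap K F (g i) * ((Fin.cons 1 x' : Fin (r + 1) → F) k *
        algebraMap K F (a i k)) = (Fin.cons 1 x' : Fin (r + 1) → F) k *
        ∑ i, algebraMap K F (g i) * algebraMap K F (a i k) := by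
      rw [Finset.mul_sum]
      exact Finset.sum_congr rfl fun i _ => by ring
    rw [h4, h3, mul_zero]
  have hyHRP : HRP K F y := hrp_trans x' y hσ a (fun i => by rw [hcons, ha]) hind
  have hfin := deg_bound hSPC t ht d W hW h1 htW hrel y hyHRP (fun k => by
    rw [hy]
    exact (v k.succ).2.1)
  have hsq : p + 1 ≤ Nat.sqrt (4 * d + 1) := by
    rw [Nat.le_sqrt]
    rcases Nat.even_or_odd' p with ⟨q, hq | hq⟩
    · subst hq
      have h3 : (2 * q + 1) ^ 2 / 4 = q * q + q := by
        have : (2 * q + 1) ^ 2 = 4 * (q * q + q) + 1 := by ring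
        omega
      rw [h3] at hfin
      nlinarith
    · subst hq
      have h3 : (2 * q + 1 + 1) ^ 2 / 4 = (q + 1) * (q + 1) := by
        have : (2 * q + 1 + 1) ^ 2 = 4 * ((q + 1) * (q + 1)) := by ring
        omega
      rw [h3] at hfin
      nlinarith
  omega

end

end Pool.Agent.H72.SBP
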