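import Pool.Agent.H79.BF.EXS
import Pool.Agent.H72.SBP.Deg6

open Finset Module

namespace Pool.Agent.H72.SBP

open Pool.Agent.H72.BF
open Pool.Agent.H79.BF (relD_add)

/-- the algebraic theorem with an extra bound for the dimension -/
theorem exs2 (h1 : T_CVR) (h2 : T_SPT) : ∀ d M : ℕ, ∃ s : ℕ, ∀ (K F : Type) [Field K] [CharZero K]
    [IsAlgClosed K] [Field F] [Algebra K F] (t : F) (y : Fin M → F),
    LinearIndependent K (Fin.cons 1 (Fin.cons t y) : Fin (M + 2) → F) → ∀ β : ℕ,
    (∀ W : Submodule K F, FiniteDimensional K W → (1 : F) ∈ W → t ∈ W →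
      W ≤ Submodule.span K (Set.range (Fin.cons 1 (Fin.cons t y) : Fin (M + 2) → F)) →
      (∀ z ∈ W, RelD K t d z) → finrank K W ≤ β) →
    ∃ W : Fin s → Submodule K (Fin M → K), (∀ i, Module.finrank K (W i) ≤ min (d - 1) (β - 2)) ∧
      ∀ v : Fin M → K, RelD K t d (∑ j, algebraMap K F (v j) * y j) → ∃ i, v ∈ W i := by
  classical
  intro d M
  obtain ⟨s, hs⟩ := h1 d M
  refine ⟨s, ?_⟩
  intro K F _ _ _ _ _ t y hli β hβ
  have hli' := Fintype.linearIndependent_iff.1 hli
  have ht : Transcendental K t := by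
    intro halg
    have hint : IsIntegral K t := halg.isIntegral
    have hdeg : (minpoly K t).degree = 1 :=
      IsAlgClosed.degree_eq_one_of_irreducible K (minpoly.irreducible hint)
    obtain ⟨c, hc⟩ := minpoly.mem_range_of_degree_eq_one K t hdeg
    have hg := hli' (Fin.cons c (Fin.cons (-1) 0)) (by
      rw [Fin.sum_univ_succ, Fin.sum_univ_succ]
      simp only [Fin.cons_zero, Fin.cons_succ, Pi.zero_apply, zero_smul, Finset.sum_const_zero]
      rw [Algebra.smul_def, hc]
      simp) 1
    have : (-1 : K) = 0 := hg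
    simp at this
  obtain ⟨Ws, hcard, hin, hcov⟩ := hs K F t ht y
  have hsum : ∀ v : Fin M → K, ∑ j, algebraMap K F (v j) * y j
      = Fintype.linearCombination K y v := by
    intro v
    rw [Fintype.linearCombination_apply]
    exact Finset.sum_congr rfl fun j _ => (Algebra.smul_def _ _).symm
  have hdim : ∀ W ∈ Ws, finrank K W ≤ min (d - 1) (β - 2) := by
    intro W hW
    let Ψ : (K × K × W) →ₗ[K] F :=
      LinearMap.coprod (LinearMap.toSpanSingleton K F 1)
        (LinearMap.coprod (LinearMap.toSpanSingleton K F t)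
          ((Fintype.linearCombination K y).comp W.subtype))
    have hΨ : ∀ a b (v : W), Ψ (a, b, v) = a • (1 : F) + (b • t +
        Fintype.linearCombination K y (v : Fin M → K)) := by
      intro a b v
      rfl
    have hinj : Function.Injective Ψ := by
      rw [injective_iff_map_eq_zero]
      rintro ⟨a, b, v⟩ h0
      rw [hΨ] at h0
      have hg := hli' (Fin.cons a (Fin.cons b (v : Fin M → K))) (by
        rw [Fin.sum_univ_succ, Fin.sum_univ_succ]
        simp only [Fin.cons_zero, Fin.cons_succ]
        rw [Fintype.linearCombination_apply] at h0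
        exact h0)
      have ha : a = 0 := hg 0
      have hb : b = 0 := hg 1
      have hv : v = 0 := by
        apply Subtype.ext
        funext j
        exact hg j.succ.succ
      rw [ha, hb, hv]
      rfl
    have hfd : FiniteDimensional K (LinearMap.range Ψ) := inferInstance
    have hrelΨ : ∀ z ∈ LinearMap.range Ψ, RelD K t d z := by
      rintro z ⟨⟨a, b, v⟩, rfl⟩
      rw [hΨ]
      refine relD_add a b ?_
      rw [← hsum]
      exact hin W hW v v.2
    have hle := h2 K F t ht d (LinearMap.range Ψ) hfd hrelΨ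
    have hle2 := hβ (LinearMap.range Ψ) hfd
      ⟨(1, 0, 0), by rw [hΨ]; simp⟩ ⟨(0, 1, 0), by rw [hΨ]; simp⟩ (by
        rintro z ⟨⟨a, b, v⟩, rfl⟩
        rw [hΨ]
        refine Submodule.add_mem _ (Submodule.smul_mem _ _ (Submodule.subset_span ⟨0, rfl⟩))
          (Submodule.add_mem _ (Submodule.smul_mem _ _ (Submodule.subset_span ⟨1, rfl⟩)) ?_)
        rw [Fintype.linearCombination_apply]
        exact Submodule.sum_mem _ fun j _ => Submodule.smul_mem _ _
          (Submodule.subset_span ⟨j.succ.succ, rfl⟩)) hrelΨ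
    rw [LinearMap.finrank_range_of_inj hinj] at hle hle2
    simp only [Module.finrank_prod, Module.finrank_self] at hle hle2
    omega
  obtain ⟨e⟩ : Nonempty (Ws ↪ Fin s) := by
    rw [Function.Embedding.nonempty_iff_card_le]
    simpa using hcard
  refine ⟨fun i => if h : ∃ W : Ws, e W = i then (h.choose : Submodule K (Fin M → K)) else ⊥,
    ?_, ?_⟩
  · intro i
    beta_reduce
    by_cases h : ∃ W : Ws, e W = i
    · rw [dif_pos h]
      exact hdim _ h.choose.2
    · rw [dif_neg h]
      simp
  · intro v hv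
    obtain ⟨W, hW, hvW⟩ := hcov v hv
    refine ⟨e ⟨W, hW⟩, ?_⟩
    have h : ∃ W' : Ws, e W' = e ⟨W, hW⟩ := ⟨⟨W, hW⟩, rfl⟩
    beta_reduce
    rw [dif_pos h]
    have := e.injective h.choose_spec
    rw [this]
    exact hvW

end Pool.Agent.H72.SBP
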