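import Pool.Agent.H72.SBP.SBP
import Pool.Agent.H72.HRA.All
import Pool.Agent.H35.SBP.ECH
import Pool.Agent.H34.SBP.DSC
import Pool.Agent.H48.SBP.FHR

namespace Pool.Agent.H72.SBP

open Pool.Agent.H72.HR
open Pool.Agent
open Pool.Agent.H72.BF

/-- the half rank theorem in the residue field -/
theorem fhrAll : T_FHR :=
  H48.SBP.fhr H35.SBP.ech (H34.SBP.dsc H78.BF.spc) (H29.BF.lft H57.BF.clr) H54.BF.root

/-- exceptional subspaces -/
theorem sbpAll : SubspaceBoundPlus :=
  sbp bakerFeldman H29.BF.pkg bffAll H84.BF.evp H84.BF.mnr H57.BF.suma H78.BF.spc fhrAll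
    HRA.half_rank

end Pool.Agent.H72.SBP
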