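import Pool.Agent.H72.SBP.All
import Pool.Agent.H72.SBP.ESF2
import Pool.Agent.H72.BF.Assemble6

namespace Pool.Agent.H72.SBP

open Pool.Agent
open Pool.Agent.H72.BF

/-- exceptional subspaces for pairs -/
theorem excSub2 : ExcSub2 :=
  esf2 bakerFeldman H29.BF.pkg bffAll H84.BF.evp H84.BF.mnr
    (H79.BF.cvr (H35.BF.stp H35.BF.nrm Pool.Agent.H72.BF.lfs2)) (H62.BF.spt H78.BF.spc)
    H78.BF.spc H79.BF.crt fhrAll HRA.half_rank

end Pool.Agent.H72.SBP
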