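import Pool.Agent.H72.SBP.GRO
import Pool.Agent.H72.BF.Targets5

open Module

namespace Pool.Agent.H72.SBP

open Pool.Agent.H72.BF (T_SPC RelD)

noncomputable section

/-- a binary form over an algebraically closed field which vanishes at a pair of elements of a
domain has a linear factor which vanishes -/
theorem binary_form {K R : Type} [Field K] [IsAlgClosed K] [CommRing R] [IsDomain R] [Algebra K R]
    (a b : R) (D : ℕ) (q : ℕ → K) (hq : ∃ i ≤ D, q i ≠ 0)
    (h : ∑ i ∈ Finset.range (D + 1), algebraMap K R (q i) * (a ^ i * b ^ (D - i)) = 0) :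
    ∃ α β : K, (α ≠ 0 ∨ β ≠ 0) ∧ algebraMap K R α * a + algebraMap K R β * b = 0 := by
  classical
  by_cases hb : b = 0
  · exact ⟨0, 1, Or.inr one_ne_zero, by simp [hb]⟩
  let κ := FractionRing R
  have hinj : Function.Injective (algebraMap R κ) := IsFractionRing.injective R κ
  let x : κ := algebraMap R κ a / algebraMap R κ b
  have hb' : algebraMap R κ b ≠ 0 := fun h0 => hb (hinj (by rw [h0, map_zero]))
  let p : Polynomial K := ∑ i ∈ Finset.range (D + 1), Polynomial.monomial i (q i)
  have hp0 : p ≠ 0 := by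
    obtain ⟨i, hi, hqi⟩ := hq
    intro h0
    apply hqi
    have h1 : p.coeff i = q i := by
      simp only [p, Polynomial.finsetSum_coeff, Polynomial.coeff_monomial]
      rw [Finset.sum_ite_eq' (Finset.range (D + 1)) i q]
      rw [if_pos (Finset.mem_range.2 (by omega))]
    rw [← h1, h0, Polynomial.coeff_zero]
  have hpx : Polynomial.aeval x p = 0 := by
    have e1 : Polynomial.aeval x p =
        ∑ i ∈ Finset.range (D + 1), algebraMap K κ (q i) * x ^ i := by
      simp only [p, map_sum, Polynomial.aeval_monomial]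
    have h1 : (algebraMap R κ b) ^ D * Polynomial.aeval x p =
        algebraMap R κ (∑ i ∈ Finset.range (D + 1),
          algebraMap K R (q i) * (a ^ i * b ^ (D - i))) := by
      rw [e1, map_sum, Finset.mul_sum]
      refine Finset.sum_congr rfl fun i hi => ?_
      rw [Finset.mem_range] at hi
      have h3 : algebraMap K κ (q i) = algebraMap R κ (algebraMap K R (q i)) :=
        IsScalarTower.algebraMap_apply K R κ _
      have h4 : (algebraMap R κ b) ^ D = (algebraMap R κ b) ^ i * (algebraMap R κ b) ^ (D - i) := by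
        rw [← pow_add]
        congr 1
        omega
      have h5 : (algebraMap R κ b) ^ i * x ^ i = (algebraMap R κ a) ^ i := by
        rw [← mul_pow, mul_div_cancel₀ _ hb']
      rw [h3, h4, map_mul, map_mul, map_pow, map_pow, ← h5]
      ring
    rw [h, map_zero] at h1
    exact (mul_eq_zero.1 h1).resolve_left (pow_ne_zero _ hb')
  have halg : IsAlgebraic K x := ⟨p, hp0, hpx⟩
  have hdeg : (minpoly K x).degree = 1 :=
    IsAlgClosed.degree_eq_one_of_irreducible K (minpoly.irreducible halg.isIntegral)
  obtain ⟨c, hc⟩ := minpoly.mem_range_of_degree_eq_one K x hdeg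
  refine ⟨1, -c, Or.inl one_ne_zero, ?_⟩
  apply hinj
  rw [map_add, map_mul, map_mul, map_one, map_one, one_mul, map_zero]
  have h5 : algebraMap R κ (algebraMap K R (-c)) = -(algebraMap K κ c) := by
    rw [← IsScalarTower.algebraMap_apply K R κ, map_neg]
  rw [h5, hc]
  have h6 : x * algebraMap R κ b = algebraMap R κ a := div_mul_cancel₀ _ hb'
  rw [neg_mul, h6, add_neg_cancel]

section
variable {K F : Type} [Field K] [Field F] [Algebra K F] {m : ℕ} (w : Fin m → F)

/-- graded evaluation -/
def psi : MvPolynomial (Fin m) K →ₐ[K] Polynomial F :=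
  MvPolynomial.aeval (fun j => Polynomial.C (w j) * Polynomial.X)

/-- linear form -/
def ell (c : Fin m → K) : MvPolynomial (Fin m) K := ∑ j, MvPolynomial.C (c j) * MvPolynomial.X j

/-- value of a linear form -/
def vl (c : Fin m → K) : F := ∑ j, algebraMap K F (c j) * w j

theorem psi_ell (c : Fin m → K) :
    psi w (ell c) = Polynomial.C (vl w c) * Polynomial.X := by
  simp only [psi, ell, vl, map_sum, map_mul, MvPolynomial.aeval_C, MvPolynomial.aeval_X,
    Finset.sum_mul]
  refine Finset.sum_congr rfl fun j _ => ?_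
  rw [IsScalarTower.algebraMap_apply K F (Polynomial F), Polynomial.algebraMap_eq]
  ring

theorem ell_add (c c' : Fin m → K) : ell (c + c') = ell c + ell c' := by
  simp [ell, add_mul, Finset.sum_add_distrib]

theorem ell_smul (a : K) (c : Fin m → K) :
    ell (a • c) = MvPolynomial.C a * ell c := by
  simp [ell, Finset.mul_sum, mul_assoc]

theorem vl_add (c c' : Fin m → K) : vl w (c + c') = vl w c + vl w c' := by
  simp [vl, add_mul, Finset.sum_add_distrib]

theorem vl_smul (a : K) (c : Fin m → K) :
    vl w (a • c) = algebraMap K F a * vl w c := by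
  simp [vl, Finset.mul_sum, mul_assoc]

/-- two linear forms are proportional modulo a prime which contains the relations and a form of
value one -/
theorem prop_mod [IsAlgClosed K] (one' : Fin m → K) (h1 : vl w one' = 1)
    (hdep : ∀ c c' : Fin m → K, ∃ Q : MvPolynomial (Fin 2) K, Q ≠ 0 ∧
      MvPolynomial.aeval ![vl w c, vl w c'] Q = 0)
    (p : Ideal (MvPolynomial (Fin m) K)) (hp : p.IsPrime) (hker : RingHom.ker (psi w) ≤ p)
    (hone : ell one' ∈ p) (c c' : Fin m → K) :
    ∃ α β : K, (α ≠ 0 ∨ β ≠ 0) ∧ ell (α • c + β • c') ∈ p := by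
  classical
  obtain ⟨Q, hQ0, hQ⟩ := hdep c c'
  obtain ⟨D, hD⟩ : ∃ D, D = Q.totalDegree := ⟨_, rfl⟩
  -- the homogenised relation
  obtain ⟨f, hf⟩ : ∃ f : MvPolynomial (Fin m) K, f = ∑ μ ∈ Q.support,
      MvPolynomial.C (Q.coeff μ) * (ell one' ^ (D - (μ 0 + μ 1)) * (ell c ^ μ 0 * ell c' ^ μ 1)) :=
    ⟨_, rfl⟩
  have hdeg : ∀ μ ∈ Q.support, μ 0 + μ 1 ≤ D := by
    intro μ hμ
    have h2 := MvPolynomial.le_totalDegree hμ
    rw [Finsupp.sum_fintype _ _ (fun _ => rfl), Fin.sum_univ_two] at h2
    rw [hD]
    exact h2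
  have hfker : f ∈ RingHom.ker (psi w) := by
    rw [RingHom.mem_ker, hf, map_sum]
    have h2 : ∀ μ ∈ Q.support, psi w (MvPolynomial.C (Q.coeff μ) *
        (ell one' ^ (D - (μ 0 + μ 1)) * (ell c ^ μ 0 * ell c' ^ μ 1))) =
        Polynomial.C (algebraMap K F (Q.coeff μ) * (vl w c ^ μ 0 * vl w c' ^ μ 1)) *
          Polynomial.X ^ D := by
      intro μ hμ
      rw [map_mul, map_mul, map_mul, map_pow, map_pow, map_pow, psi_ell, psi_ell, psi_ell, h1]
      have h3 : psi w (MvPolynomial.C (Q.coeff μ)) = Polynomial.C (algebraMap K F (Q.coeff μ)) := by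
        simp only [psi, MvPolynomial.aeval_C]
        rw [IsScalarTower.algebraMap_apply K F (Polynomial F), Polynomial.algebraMap_eq]
      rw [h3, map_one, one_mul]
      have h4 : D = (D - (μ 0 + μ 1)) + (μ 0 + μ 1) := by have := hdeg μ hμ; omega
      conv_rhs => rw [h4]
      rw [map_mul, map_mul, map_pow, map_pow]
      ring
    rw [Finset.sum_congr rfl h2, ← Finset.sum_mul, ← map_sum]
    have h5 : MvPolynomial.aeval ![vl w c, vl w c'] Q =
        ∑ μ ∈ Q.support, algebraMap K F (Q.coeff μ) * (vl w c ^ μ 0 * vl w c' ^ μ 1) := by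
      rw [MvPolynomial.aeval_def, MvPolynomial.eval₂_eq']
      refine Finset.sum_congr rfl fun μ _ => ?_
      rw [Fin.prod_univ_two]
      rfl
    rw [← h5, hQ, map_zero, zero_mul]
  have hfp : f ∈ p := hker hfker
  -- reduce modulo p
  let R := MvPolynomial (Fin m) K ⧸ p
  have : IsDomain R := Ideal.Quotient.isDomain p
  let a : R := Ideal.Quotient.mk p (ell c)
  let b : R := Ideal.Quotient.mk p (ell c')
  have hones : Ideal.Quotient.mk p (ell one') = 0 := Ideal.Quotient.eq_zero_iff_mem.2 hone
  obtain ⟨q, hq⟩ : ∃ q : ℕ → K, q = fun i =>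
      Q.coeff (Finsupp.single 0 i + Finsupp.single 1 (D - i)) := ⟨_, rfl⟩
  have hqne : ∃ i ≤ D, q i ≠ 0 := by
    have hne : Q.support.Nonempty := by
      rw [Finset.nonempty_iff_ne_empty, Ne, MvPolynomial.support_eq_empty]
      exact hQ0
    obtain ⟨μ, hμ, hμD⟩ := Finset.exists_mem_eq_sup Q.support hne
      (fun s => s.sum fun _ e => e)
    have h2 : μ 0 + μ 1 = D := by
      have h3 : Q.totalDegree = μ.sum fun _ e => e := hμD
      rw [Finsupp.sum_fintype _ _ (fun _ => rfl), Fin.sum_univ_two] at h3
      rw [hD, h3]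
    refine ⟨μ 0, by omega, ?_⟩
    have h4 : Finsupp.single 0 (μ 0) + Finsupp.single 1 (D - μ 0) = μ := by
      ext i
      fin_cases i
      · simp
      · simp
        omega
    rw [hq]
    simp only
    rw [h4]
    exact MvPolynomial.mem_support_iff.1 hμ
  have hsum : ∑ i ∈ Finset.range (D + 1), algebraMap K R (q i) * (a ^ i * b ^ (D - i)) = 0 := by
    have h2 : Ideal.Quotient.mk p f = 0 := Ideal.Quotient.eq_zero_iff_mem.2 hfp
    rw [hf, map_sum] at h2
    rw [← h2]
    have h3 : ∀ μ ∈ Q.support, Ideal.Quotient.mk p (MvPolynomial.C (Q.coeff μ) *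
        (ell one' ^ (D - (μ 0 + μ 1)) * (ell c ^ μ 0 * ell c' ^ μ 1))) =
        if μ 0 + μ 1 = D then algebraMap K R (Q.coeff μ) * (a ^ μ 0 * b ^ μ 1) else 0 := by
      intro μ hμ
      rw [map_mul, map_mul, map_mul, map_pow, map_pow, map_pow, hones]
      split_ifs with h4
      · rw [h4, Nat.sub_self, pow_zero, one_mul]
        rfl
      · rw [zero_pow (by have := hdeg μ hμ; omega), zero_mul, mul_zero]
    rw [Finset.sum_congr rfl h3, ← Finset.sum_filter]
    symm
    have h5 : ∑ i ∈ Finset.range (D + 1), algebraMap K R (q i) * (a ^ i * b ^ (D - i)) =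
        ∑ i ∈ (Finset.range (D + 1)).filter (fun i => q i ≠ 0),
          algebraMap K R (q i) * (a ^ i * b ^ (D - i)) := by
      rw [Finset.sum_filter]
      refine Finset.sum_congr rfl fun i _ => ?_
      split_ifs with h6
      · rfl
      · push Not at h6
        rw [h6, map_zero, zero_mul]
    rw [h5]
    refine Finset.sum_bij' (fun μ _ => μ 0)
      (fun i _ => Finsupp.single 0 i + Finsupp.single 1 (D - i)) ?_ ?_ ?_ ?_ ?_
    · intro μ hμ
      rw [Finset.mem_filter] at hμ
      rw [Finset.mem_filter, Finset.mem_range]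
      refine ⟨by have := hdeg μ hμ.1; omega, ?_⟩
      rw [hq]
      have h4 : Finsupp.single 0 (μ 0) + Finsupp.single 1 (D - μ 0) = μ := by
        ext i
        fin_cases i
        · simp
        · simp
          omega
      simp only
      rw [h4]
      exact MvPolynomial.mem_support_iff.1 hμ.1
    · intro i hi
      rw [Finset.mem_filter, Finset.mem_range] at hi
      rw [Finset.mem_filter]
      refine ⟨MvPolynomial.mem_support_iff.2 (by rw [hq] at hi; exact hi.2), ?_⟩
      simp
      omega
    · intro μ hμ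
      rw [Finset.mem_filter] at hμ
      ext i
      fin_cases i
      · simp
      · simp
        omega
    · intro i hi
      simp
    · intro μ hμ
      rw [Finset.mem_filter] at hμ
      have h4 : Finsupp.single 0 (μ 0) + Finsupp.single 1 (D - μ 0) = μ := by
        ext i
        fin_cases i
        · simp
        · simp
          omega
      have h6 : D - μ 0 = μ 1 := by omega
      rw [hq]
      simp only
      rw [h4, h6]
  obtain ⟨α, β, hαβ, h6⟩ := binary_form a b D q hqne hsum
  refine ⟨α, β, hαβ, ?_⟩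
  rw [← Ideal.Quotient.eq_zero_iff_mem, ell_add, ell_smul, ell_smul, map_add, map_mul, map_mul]
  exact h6

end

end

end Pool.Agent.H72.SBP
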