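import Pool.Agent.H72.SBP.Deg1
import Mathlib.GroupTheory.CosetCover

open Module

namespace Pool.Agent.H72.SBP

open Pool.Agent.H72.BF (T_SPC RelD)

noncomputable section

variable {K F : Type} [Field K] [Field F] [Algebra K F] {m : ℕ} (w : Fin m → F)

theorem psi_coeff (f : MvPolynomial (Fin m) K) (e : ℕ) :
    (psi w f).coeff e ∈ (Submodule.span K (Set.range w)) ^ e := by
  induction f using MvPolynomial.induction_on generalizing e with
  | C a =>
    have h : psi (K := K) w (MvPolynomial.C a) = Polynomial.C (algebraMap K F a) := by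
      simp only [psi, MvPolynomial.aeval_C]
      rw [IsScalarTower.algebraMap_apply K F (Polynomial F), Polynomial.algebraMap_eq]
    rw [h, Polynomial.coeff_C]
    split_ifs with he
    · rw [he, pow_zero]
      exact Submodule.algebraMap_mem a
    · exact Submodule.zero_mem _
  | add p q hp hq =>
    rw [map_add, Polynomial.coeff_add]
    exact Submodule.add_mem _ (hp e) (hq e)
  | mul_X p j hp =>
    have h : psi (K := K) w (MvPolynomial.X j) = Polynomial.C (w j) * Polynomial.X := by
      simp [psi]
    rw [map_mul, h, ← mul_assoc]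
    cases e with
    | zero =>
      rw [Polynomial.coeff_mul_X_zero]
      exact Submodule.zero_mem _
    | succ e =>
      rw [Polynomial.coeff_mul_X, Polynomial.coeff_mul_C, pow_succ]
      exact Submodule.mul_mem_mul (hp e) (Submodule.subset_span ⟨j, rfl⟩)

/-- linear map of linear forms -/
def ellL : (Fin m → K) →ₗ[K] MvPolynomial (Fin m) K where
  toFun := ell
  map_add' := ell_add
  map_smul' a c := by rw [ell_smul, RingHom.id_apply, MvPolynomial.smul_eq_C_mul]

theorem ell_single (j : Fin m) : ell (Pi.single j (1 : K)) = MvPolynomial.X j := by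
  classical
  unfold ell
  rw [Finset.sum_eq_single j]
  · simp
  · intro i _ hi
    simp [hi]
  · simp

/-- for all `z` outside finitely many proper subspaces the powers of `W` are finitely generated over
`1, t, z` -/
theorem gen_z [IsAlgClosed K] (one' ct : Fin m → K) (h1 : vl w one' = 1)
    (hdep : ∀ c c' : Fin m → K, ∃ Q : MvPolynomial (Fin 2) K, Q ≠ 0 ∧
      MvPolynomial.aeval ![vl w c, vl w c'] Q = 0) :
    ∃ S : Finset (Submodule K (Fin m → K)), (∀ U ∈ S, U ≠ ⊤) ∧ ∀ cz : Fin m → K,
      (∀ U ∈ S, cz ∉ U) → ∃ e1 : ℕ, ∀ e : ℕ, e1 ≤ e →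
        (Submodule.span K (Set.range w)) ^ (e + 1) ≤
          (Submodule.span K {1, vl w ct, vl w cz} : Submodule K F) *
            (Submodule.span K (Set.range w)) ^ e := by
  classical
  obtain ⟨J0, hJ0⟩ : ∃ J0 : Ideal (MvPolynomial (Fin m) K),
    J0 = RingHom.ker (psi w) ⊔ Ideal.span {ell one', ell ct} := ⟨_, rfl⟩
  have hfin : (J0.minimalPrimes).Finite := Ideal.finite_minimalPrimes_of_isNoetherianRing _ J0
  let Wp : Ideal (MvPolynomial (Fin m) K) → Submodule K (Fin m → K) :=
    fun p => (p.restrictScalars K).comap ellL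
  have hWp : ∀ p c, c ∈ Wp p ↔ ell c ∈ p := fun p c => Iff.rfl
  refine ⟨(hfin.toFinset.image Wp).filter (fun U => U ≠ ⊤),
    fun U hU => (Finset.mem_filter.1 hU).2, ?_⟩
  intro cz hcz
  obtain ⟨J, hJ⟩ : ∃ J : Ideal (MvPolynomial (Fin m) K),
    J = RingHom.ker (psi w) ⊔ Ideal.span {ell one', ell ct, ell cz} := ⟨_, rfl⟩
  have hJJ : J0 ≤ J := by
    rw [hJ0, hJ]
    refine sup_le_sup_left (Ideal.span_mono ?_) _
    intro x hx
    rcases hx with rfl | hx
    · exact Set.mem_insert _ _
    · rw [Set.mem_singleton_iff] at hx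
      rw [hx]
      exact Set.mem_insert_of_mem _ (Set.mem_insert _ _)
  have hrad : ∀ j : Fin m, (MvPolynomial.X j : MvPolynomial (Fin m) K) ∈ J.radical := by
    intro j
    rw [Ideal.radical_eq_sInf, Submodule.mem_sInf]
    rintro p ⟨hJp, hp⟩
    obtain ⟨p0, hp0, hp0p⟩ := Ideal.exists_minimalPrimes_le (hJJ.trans hJp)
    have hp0prime : p0.IsPrime := hp0.1.1
    have hJ0p0 : J0 ≤ p0 := hp0.1.2
    by_cases htop : Wp p0 = ⊤
    · have h2 : Pi.single j (1 : K) ∈ Wp p0 := by rw [htop]; trivial
      rw [hWp, ell_single] at h2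
      exact hp0p h2
    · have hczp : cz ∉ Wp p0 := by
        apply hcz
        rw [Finset.mem_filter, Finset.mem_image]
        exact ⟨⟨p0, hfin.mem_toFinset.2 hp0, rfl⟩, htop⟩
      have hker : RingHom.ker (psi w) ≤ p0 := by
        refine le_trans ?_ hJ0p0
        rw [hJ0]
        exact le_sup_left
      have hone : ell one' ∈ p0 := by
        apply hJ0p0
        rw [hJ0]
        exact Ideal.mem_sup_right (Ideal.subset_span (Set.mem_insert _ _))
      obtain ⟨α, β, hαβ, h3⟩ := prop_mod w one' h1 hdep p0 hp0prime hker hone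
        (Pi.single j 1) cz
      rw [ell_add, ell_smul, ell_smul, ell_single] at h3
      have hα : α ≠ 0 := by
        intro hα
        have hβ : β ≠ 0 := hαβ.resolve_left (fun h => h hα)
        rw [hα, map_zero, zero_mul, zero_add] at h3
        have h4 : ell cz = MvPolynomial.C β⁻¹ * (MvPolynomial.C β * ell cz) := by
          rw [← mul_assoc, ← map_mul, inv_mul_cancel₀ hβ, map_one, one_mul]
        apply hczp
        rw [hWp, h4]
        exact p0.mul_mem_left _ h3
      have hczJ : ell cz ∈ p := by
        apply hJp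
        rw [hJ]
        exact Ideal.mem_sup_right (Ideal.subset_span
          (Set.mem_insert_of_mem _ (Set.mem_insert_of_mem _ rfl)))
      have h4 : MvPolynomial.C α * MvPolynomial.X j ∈ p := by
        have h5 := p.sub_mem (hp0p h3) (Ideal.mul_mem_left p (MvPolynomial.C β) hczJ)
        rwa [add_sub_cancel_right] at h5
      have h6 : (MvPolynomial.X j : MvPolynomial (Fin m) K) =
          MvPolynomial.C α⁻¹ * (MvPolynomial.C α * MvPolynomial.X j) := by
        rw [← mul_assoc, ← map_mul, inv_mul_cancel₀ hα, map_one, one_mul]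
      rw [h6]
      exact Ideal.mul_mem_left p _ h4
  choose k hk using fun j => (hrad j)
  obtain ⟨k0, hk0⟩ : ∃ k0, k0 = ∑ j, k j := ⟨_, rfl⟩
  refine ⟨m * k0, fun e he => ?_⟩
  rw [Submodule.span_pow (Set.range w) (e + 1), Submodule.span_le]
  intro x hx
  rw [Set.mem_pow] at hx
  obtain ⟨f, hf⟩ := hx
  rw [List.prod_ofFn] at hf
  choose g hg using fun i => (f i).2
  have hx' : x = ∏ i, w (g i) := by
    rw [← hf]
    exact Finset.prod_congr rfl fun i _ => (hg i).symm
  -- some index occurs often
  obtain ⟨j, hj⟩ : ∃ j, k0 < (Finset.univ.filter (fun i => g i = j)).card := by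
    by_contra hcon
    push Not at hcon
    have h2 : (Finset.univ : Finset (Fin (e + 1))).card =
        ∑ j, (Finset.univ.filter (fun i => g i = j)).card :=
      Finset.card_eq_sum_card_fiberwise (fun i _ => Finset.mem_univ _)
    rw [Finset.card_univ, Fintype.card_fin] at h2
    have h3 : ∑ j : Fin m, (Finset.univ.filter (fun i => g i = j)).card ≤ ∑ _j : Fin m, k0 :=
      Finset.sum_le_sum fun j _ => hcon j
    rw [Finset.sum_const, Finset.card_univ, Fintype.card_fin, smul_eq_mul] at h3
    omega
  have hmem : (∏ i, MvPolynomial.X (g i) : MvPolynomial (Fin m) K) ∈ J := by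
    have h2 : (∏ i, MvPolynomial.X (g i) : MvPolynomial (Fin m) K) =
        (∏ i ∈ Finset.univ.filter (fun i => g i = j), MvPolynomial.X (g i)) *
        ∏ i ∈ Finset.univ.filter (fun i => ¬ g i = j), MvPolynomial.X (g i) :=
      (Finset.prod_filter_mul_prod_filter_not _ _ _).symm
    have h3 : (∏ i ∈ Finset.univ.filter (fun i => g i = j), MvPolynomial.X (g i) :
        MvPolynomial (Fin m) K) = MvPolynomial.X j ^
          (Finset.univ.filter (fun i => g i = j)).card := by
      rw [← Finset.prod_const]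
      refine Finset.prod_congr rfl fun i hi => ?_
      rw [(Finset.mem_filter.1 hi).2]
    have h4 : k j ≤ (Finset.univ.filter (fun i => g i = j)).card := by
      have h5 : k j ≤ k0 := by
        rw [hk0]
        exact Finset.single_le_sum (fun _ _ => Nat.zero_le _) (Finset.mem_univ j)
      omega
    rw [h2, h3]
    apply J.mul_mem_right
    obtain ⟨s, hs⟩ := Nat.exists_eq_add_of_le h4
    rw [hs, pow_add]
    exact J.mul_mem_right _ (hk j)
  rw [hJ, Submodule.mem_sup] at hmem
  obtain ⟨a, ha, b, hb, hab⟩ := hmem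
  rw [Ideal.mem_span_insert] at hb
  obtain ⟨f1, b1, hb1, rfl⟩ := hb
  rw [Ideal.mem_span_insert] at hb1
  obtain ⟨f2, b2, hb2, rfl⟩ := hb1
  rw [Ideal.mem_span_singleton'] at hb2
  obtain ⟨f3, rfl⟩ := hb2
  have h5 := congrArg (fun q => (psi w q).coeff (e + 1)) hab
  simp only [map_add, map_mul, map_prod] at h5
  rw [RingHom.mem_ker] at ha
  have hX : ∀ i, psi (K := K) w (MvPolynomial.X (g i)) =
      Polynomial.C (w (g i)) * Polynomial.X := by
    intro i
    simp [psi]
  have hcf : ∀ (q : Polynomial F) (v : F),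
      (q * (Polynomial.C v * Polynomial.X)).coeff (e + 1) = v * q.coeff e := by
    intro q v
    rw [← mul_assoc, Polynomial.coeff_mul_X, Polynomial.coeff_mul_C, mul_comm]
  have hprod : (∏ i, psi (K := K) w (MvPolynomial.X (g i))).coeff (e + 1) = x := by
    simp only [hX]
    rw [Finset.prod_mul_distrib, Finset.prod_const, Finset.card_univ, Fintype.card_fin,
      ← map_prod, Polynomial.coeff_C_mul, Polynomial.coeff_X_pow_self, mul_one, hx']
  rw [hprod, ha, zero_add, psi_ell, psi_ell, psi_ell, Polynomial.coeff_add, Polynomial.coeff_add,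
    hcf, hcf, hcf, h1] at h5
  rw [← h5]
  have hin : ∀ v ∈ ({1, vl w ct, vl w cz} : Set F), ∀ q : MvPolynomial (Fin m) K,
      v * (psi w q).coeff e ∈ (Submodule.span K {1, vl w ct, vl w cz} : Submodule K F) *
        (Submodule.span K (Set.range w)) ^ e := fun v hv q =>
    Submodule.mul_mem_mul (Submodule.subset_span hv) (psi_coeff w q e)
  refine Submodule.add_mem _ (hin _ (Set.mem_insert _ _) _) (Submodule.add_mem _
    (hin _ (Set.mem_insert_of_mem _ (Set.mem_insert _ _)) _)
    (hin _ (Set.mem_insert_of_mem _ (Set.mem_insert_of_mem _ rfl)) _))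

end

end Pool.Agent.H72.SBP
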