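import Pool.Agent.H72.SBP.Deg2
import Mathlib.FieldTheory.PrimitiveElement

open Module

namespace Pool.Agent.H72.SBP

open Pool.Agent.H72.BF (T_SPC RelD)

noncomputable section

variable {K F : Type} [Field K] [Field F] [Algebra K F] {m : ℕ} (w : Fin m → F)

/-- a generic linear combination generates the field -/
theorem exists_prim [CharZero K] [IsAlgClosed K] (E0 : IntermediateField K F)
    (halg : ∀ j, IsAlgebraic E0 (w j)) (S : Finset (Submodule K (Fin m → K)))
    (hS : ∀ U ∈ S, U ≠ ⊤) :
    ∃ cz : Fin m → K, (∀ U ∈ S, cz ∉ U) ∧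
      ∀ j, w j ∈ IntermediateField.adjoin E0 {vl w cz} := by
  classical
  have : Infinite K := inferInstance
  have hcz : CharZero F := charZero_of_injective_algebraMap (algebraMap K F).injective
  have hcz0 : CharZero E0 := charZero_of_injective_algebraMap (algebraMap K E0).injective
  -- the set of admissible vectors
  obtain ⟨Z, hZ⟩ : ∃ Z : Set (Fin m → K), Z = {c | ∀ U ∈ S, c ∉ U} := ⟨_, rfl⟩
  have hZne : Z.Nonempty := by
    have h1 := Subspace.biUnion_ne_univ_of_top_notMem (k := K) (s := S)
      (fun h => hS ⊤ h rfl)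
    rw [Set.ne_univ_iff_exists_notMem] at h1
    obtain ⟨c, hc⟩ := h1
    refine ⟨c, ?_⟩
    rw [hZ]
    intro U hU hcU
    apply hc
    rw [Set.mem_iUnion₂]
    exact ⟨U, hU, hcU⟩
  -- everything is algebraic
  have hvalg : ∀ c : Fin m → K, IsAlgebraic E0 (vl w c) := by
    intro c
    unfold vl
    have h2 : ∀ s : Finset (Fin m), IsAlgebraic E0 (∑ j ∈ s, algebraMap K F (c j) * w j) := by
      intro s
      induction s using Finset.induction_on with
      | empty => rw [Finset.sum_empty]; exact isAlgebraic_zero
      | insert j s hj ih =>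
        rw [Finset.sum_insert hj]
        refine IsAlgebraic.add (IsAlgebraic.mul ?_ (halg j)) ih
        have h3 : algebraMap K F (c j) = algebraMap E0 F (algebraMap K E0 (c j)) :=
          IsScalarTower.algebraMap_apply K E0 F _
        rw [h3]
        exact isAlgebraic_algebraMap _
    exact h2 Finset.univ
  have hfd0 : FiniteDimensional E0 (IntermediateField.adjoin E0 (Set.range w)) :=
    IntermediateField.finiteDimensional_adjoin (fun x hx => by
      obtain ⟨j, rfl⟩ := hx
      exact (halg j).isIntegral)
  have hvle : ∀ c : Fin m → K, IntermediateField.adjoin E0 {vl w c} ≤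
      IntermediateField.adjoin E0 (Set.range w) := by
    intro c
    rw [IntermediateField.adjoin_simple_le_iff]
    unfold vl
    refine sum_mem fun j _ => mul_mem ?_ (IntermediateField.subset_adjoin _ _ ⟨j, rfl⟩)
    have h3 : algebraMap K F (c j) = algebraMap E0 F (algebraMap K E0 (c j)) :=
      IsScalarTower.algebraMap_apply K E0 F _
    rw [h3]
    exact IntermediateField.algebraMap_mem _ _
  -- maximal degree
  obtain ⟨cz, hczZ, hmax⟩ : ∃ cz ∈ Z, ∀ c ∈ Z,
      finrank E0 (IntermediateField.adjoin E0 {vl w c}) ≤
        finrank E0 (IntermediateField.adjoin E0 {vl w cz}) := by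
    have hbd : ∀ c : Fin m → K, finrank E0 (IntermediateField.adjoin E0 {vl w c}) ≤
        finrank E0 (IntermediateField.adjoin E0 (Set.range w)) := by
      intro c
      exact LinearMap.finrank_le_finrank_of_injective
        (f := (IntermediateField.inclusion (hvle c)).toLinearMap)
        (IntermediateField.inclusion_injective (hvle c))
    have hfin : (Set.image (fun c => finrank E0 (IntermediateField.adjoin E0 {vl w c})) Z).Finite :=
      Set.Finite.subset (Set.finite_Iic (finrank E0 (IntermediateField.adjoin E0 (Set.range w))))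
        (by rintro _ ⟨c, _, rfl⟩; exact hbd c)
    obtain ⟨_, ⟨cz, hcz, rfl⟩, h5⟩ := Set.exists_max_image _ id hfin (hZne.image _)
    exact ⟨cz, hcz, fun c hc => h5 _ ⟨c, hc, rfl⟩⟩
  refine ⟨cz, by rw [hZ] at hczZ; exact hczZ, fun j => ?_⟩
  obtain ⟨E1, hE1⟩ : ∃ E1 : IntermediateField E0 F,
    E1 = IntermediateField.adjoin E0 {vl w cz, w j} := ⟨_, rfl⟩
  have hz1 : vl w cz ∈ E1 := by
    rw [hE1]; exact IntermediateField.subset_adjoin _ _ (Set.mem_insert _ _)
  have hw1 : w j ∈ E1 := by
    rw [hE1]; exact IntermediateField.subset_adjoin _ _ (Set.mem_insert_of_mem _ rfl)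
  have hfd1 : FiniteDimensional E0 E1 := by
    rw [hE1]
    exact IntermediateField.finiteDimensional_adjoin (fun x hx => by
      rcases hx with rfl | hx
      · exact (hvalg cz).isIntegral
      · rw [Set.mem_singleton_iff.1 hx]
        exact (halg j).isIntegral)
  have hfinI : Finite (IntermediateField E0 E1) :=
    Field.finite_intermediateField_of_exists_primitive_element E0 E1
      (Field.exists_primitive_element E0 E1)
  -- the infinite set of parameters
  obtain ⟨A, hA⟩ : ∃ A : Set K, A = {a : K | cz + a • Pi.single j 1 ∈ Z} := ⟨_, rfl⟩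
  have hAinf : A.Infinite := by
    have hcompl : Aᶜ.Finite := by
      have hsub : Aᶜ ⊆ ⋃ U ∈ S, {a : K | cz + a • Pi.single j 1 ∈ U} := by
        intro a ha
        rw [hA, Set.mem_compl_iff, Set.mem_ofPred_eq, hZ, Set.mem_ofPred_eq] at ha
        push Not at ha
        obtain ⟨U, hU, hc⟩ := ha
        rw [Set.mem_iUnion₂]
        exact ⟨U, hU, hc⟩
      refine Set.Finite.subset (Set.Finite.biUnion S.finite_toSet fun U hU => ?_) hsub
      apply Set.Subsingleton.finite
      intro a ha a' ha'
      by_contra hne
      have h5 : (cz + a • Pi.single j (1 : K)) - (cz + a' • Pi.single j 1) ∈ U := U.sub_mem ha ha'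
      rw [add_sub_add_left_eq_sub, ← sub_smul] at h5
      have h6 := U.smul_mem (a - a')⁻¹ h5
      rw [smul_smul, inv_mul_cancel₀ (sub_ne_zero.2 hne), one_smul] at h6
      have h7 := U.sub_mem ha (U.smul_mem a h6)
      rw [add_sub_cancel_right] at h7
      rw [hZ] at hczZ
      exact hczZ U hU h7
    intro hfin
    exact Set.infinite_univ (α := K) (by
      rw [← Set.union_compl_self A]
      exact hfin.union hcompl)
  have hva : ∀ a : K, vl w (cz + a • Pi.single j 1) = vl w cz + algebraMap K F a * w j := by
    intro a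
    rw [vl_add, vl_smul]
    congr 2
    unfold vl
    rw [Finset.sum_eq_single j]
    · simp
    · intro i _ hi
      simp [hi]
    · simp
  have hKmem : ∀ (L : IntermediateField E0 F) (a : K), algebraMap K F a ∈ L := by
    intro L a
    rw [IsScalarTower.algebraMap_apply K E0 F a]
    exact IntermediateField.algebraMap_mem _ _
  obtain ⟨a, ha, a', ha', hne, heq⟩ := hAinf.exists_ne_map_eq_of_mapsTo
    (f := fun a => IntermediateField.adjoin E0 {vl w (cz + a • Pi.single j 1)})
    (t := Set.range (IntermediateField.lift : IntermediateField E0 E1 → IntermediateField E0 F))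
    (by
      intro a _
      have h5 : IntermediateField.adjoin E0 {vl w (cz + a • Pi.single j 1)} ≤ E1 := by
        rw [IntermediateField.adjoin_simple_le_iff, hva]
        exact add_mem hz1 (mul_mem (hKmem E1 a) hw1)
      exact ⟨IntermediateField.restrict h5, IntermediateField.lift_restrict h5⟩)
    (Set.finite_range _)
  obtain ⟨L, hL⟩ : ∃ L : IntermediateField E0 F,
    L = IntermediateField.adjoin E0 {vl w (cz + a • Pi.single j 1)} := ⟨_, rfl⟩
  have hma : vl w (cz + a • Pi.single j 1) ∈ L := by
    rw [hL]
    exact IntermediateField.mem_adjoin_simple_self _ _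
  have hma' : vl w (cz + a' • Pi.single j 1) ∈ L := by
    rw [hL, heq]
    exact IntermediateField.mem_adjoin_simple_self _ _
  have hwm : w j ∈ L := by
    have h5 := sub_mem hma hma'
    rw [hva, hva, add_sub_add_left_eq_sub, ← sub_mul, ← map_sub] at h5
    have h6 := mul_mem (hKmem L (a - a')⁻¹) h5
    rwa [← mul_assoc, ← map_mul, inv_mul_cancel₀ (sub_ne_zero.2 hne), map_one, one_mul] at h6
  have hzm : vl w cz ∈ L := by
    have h5 := sub_mem hma (mul_mem (hKmem L a) hwm)
    rwa [hva, add_sub_cancel_right] at h5
  have hle : IntermediateField.adjoin E0 {vl w cz} ≤ L := by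
    rw [IntermediateField.adjoin_simple_le_iff]
    exact hzm
  have hfd2 : FiniteDimensional E0 L := by
    rw [hL]
    exact IntermediateField.adjoin.finiteDimensional (hvalg _).isIntegral
  have heq2 := IntermediateField.eq_of_le_of_finrank_le hle (by
    rw [hL]
    exact hmax _ (by rw [hA] at ha; exact ha))
  rw [heq2]
  exact hwm

end

end Pool.Agent.H72.SBP
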