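import Pool.Agent.H72.SBP.Deg3

open Module

namespace Pool.Agent.H72.SBP

open Pool.Agent.H72.BF (T_SPC RelD)

noncomputable section

variable {K F : Type} [Field K] [Field F] [Algebra K F] (t z : F)

/-- the space of linear polynomials in `t` and `z` -/
def TT3 (K : Type) {F : Type} [Field K] [Field F] [Algebra K F] (t z : F) : Submodule K F :=
  Submodule.span K {1, t, z}

theorem one_mem_TT3 : (1 : F) ∈ TT3 K t z := Submodule.subset_span (Set.mem_insert _ _)
theorem t_mem_TT3 : t ∈ TT3 K t z :=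
  Submodule.subset_span (Set.mem_insert_of_mem _ (Set.mem_insert _ _))
theorem z_mem_TT3 : z ∈ TT3 K t z :=
  Submodule.subset_span (Set.mem_insert_of_mem _ (Set.mem_insert_of_mem _ rfl))

theorem mem_TT3_pow (i j E : ℕ) (h : i + j ≤ E) : t ^ i * z ^ j ∈ (TT3 K t z) ^ E := by
  have h1 := Submodule.mul_mem_mul (Submodule.mul_mem_mul
    (Submodule.pow_mem_pow _ (t_mem_TT3 (K := K) t z) i)
    (Submodule.pow_mem_pow _ (z_mem_TT3 (K := K) t z) j))
    (Submodule.pow_mem_pow _ (one_mem_TT3 (K := K) t z) (E - (i + j)))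
  rw [one_pow, mul_one, ← pow_add, ← pow_add] at h1
  have h2 : i + j + (E - (i + j)) = E := by omega
  rwa [h2] at h1

theorem TT3_pow_le (E : ℕ) : (TT3 K t z) ^ E ≤
    Submodule.span K {x | ∃ i j, i + j ≤ E ∧ x = t ^ i * z ^ j} := by
  induction E with
  | zero =>
    rw [pow_zero, Submodule.one_le]
    exact Submodule.subset_span ⟨0, 0, le_rfl, by simp⟩
  | succ E ih =>
    rw [pow_succ]
    refine (mul_le_mul_left ih _).trans ?_
    unfold TT3
    rw [Submodule.span_mul_span, Submodule.span_le]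
    rintro _ ⟨_, ⟨i, j, hij, rfl⟩, v, hv, rfl⟩
    rcases hv with rfl | rfl | hv
    · exact Submodule.subset_span ⟨i, j, by omega, by simp⟩
    · exact Submodule.subset_span ⟨i + 1, j, by omega, by ring⟩
    · rw [Set.mem_singleton_iff] at hv
      subst hv
      exact Submodule.subset_span ⟨i, j + 1, by omega, by ring⟩

theorem TT3_mono {E E' : ℕ} (h : E ≤ E') : (TT3 K t z) ^ E ≤ (TT3 K t z) ^ E' := by
  obtain ⟨s, rfl⟩ := Nat.exists_eq_add_of_le h
  intro x hx
  have h1 := Submodule.mul_mem_mul hx (Submodule.pow_mem_pow _ (one_mem_TT3 (K := K) t z) s)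
  rwa [one_pow, mul_one, ← pow_add] at h1

instance fd_TT3 (E : ℕ) : FiniteDimensional K ((TT3 K t z) ^ E : Submodule K F) := by
  refine Module.Finite.iff_fg.2 (Submodule.FG.pow (Submodule.fg_span ?_) E)
  simp

theorem TT3_step (d : ℕ) (h : RelD K t d z) (E : ℕ) :
    finrank K ((TT3 K t z) ^ (E + 1) : Submodule K F) ≤
      finrank K ((TT3 K t z) ^ E : Submodule K F) + d := by
  classical
  obtain ⟨Q, hQ0, hQd, hQ⟩ := h
  obtain ⟨D, hD⟩ : ∃ D, D = Q.totalDegree := ⟨_, rfl⟩
  have hdeg : ∀ μ ∈ Q.support, μ 0 + μ 1 ≤ D := by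
    intro μ hμ
    have h2 := MvPolynomial.le_totalDegree hμ
    rw [Finsupp.sum_fintype _ _ (fun _ => rfl), Fin.sum_univ_two] at h2
    rw [hD]
    exact h2
  -- the leading monomial
  obtain ⟨ν, hν, hνD, hνmax⟩ : ∃ ν ∈ Q.support, ν 0 + ν 1 = D ∧
      ∀ μ ∈ Q.support, μ 0 + μ 1 = D → μ 1 ≤ ν 1 := by
    have hne : (Q.support.filter (fun μ => μ 0 + μ 1 = D)).Nonempty := by
      have hne : Q.support.Nonempty := by
        rw [Finset.nonempty_iff_ne_empty, Ne, MvPolynomial.support_eq_empty]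
        exact hQ0
      obtain ⟨μ, hμ, hμD⟩ := Finset.exists_mem_eq_sup Q.support hne
        (fun s => s.sum fun _ e => e)
      refine ⟨μ, Finset.mem_filter.2 ⟨hμ, ?_⟩⟩
      have h3 : Q.totalDegree = μ.sum fun _ e => e := hμD
      rw [Finsupp.sum_fintype _ _ (fun _ => rfl), Fin.sum_univ_two] at h3
      rw [hD, h3]
    obtain ⟨ν, hν, hmax⟩ := Finset.exists_max_image _ (fun μ => μ 1) hne
    rw [Finset.mem_filter] at hν
    exact ⟨ν, hν.1, hν.2, fun μ hμ hμD => hmax μ (Finset.mem_filter.2 ⟨hμ, hμD⟩)⟩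
  have hcν : Q.coeff ν ≠ 0 := MvPolynomial.mem_support_iff.1 hν
  -- the relation
  have hrel : t ^ ν 0 * z ^ ν 1 = ∑ μ ∈ Q.support.erase ν,
      (-(Q.coeff ν)⁻¹ * Q.coeff μ) • (t ^ μ 0 * z ^ μ 1) := by
    have h5 : MvPolynomial.aeval ![t, z] Q =
        ∑ μ ∈ Q.support, (Q.coeff μ) • (t ^ μ 0 * z ^ μ 1) := by
      rw [MvPolynomial.aeval_def, MvPolynomial.eval₂_eq']
      refine Finset.sum_congr rfl fun μ _ => ?_
      rw [Fin.prod_univ_two, Algebra.smul_def]
      rfl
    rw [hQ, ← Finset.add_sum_erase _ _ hν] at h5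
    have h6 : (Q.coeff ν) • (t ^ ν 0 * z ^ ν 1) =
        -∑ μ ∈ Q.support.erase ν, (Q.coeff μ) • (t ^ μ 0 * z ^ μ 1) :=
      eq_neg_of_add_eq_zero_left h5.symm
    have h7 := congrArg (fun x => (Q.coeff ν)⁻¹ • x) h6
    simp only [smul_smul, inv_mul_cancel₀ hcν, one_smul] at h7
    rw [h7, smul_neg, Finset.smul_sum, ← Finset.sum_neg_distrib]
    refine Finset.sum_congr rfl fun μ _ => ?_
    rw [smul_smul, neg_mul, neg_smul]
  -- the reduced monomials
  obtain ⟨S, hS⟩ : ∃ S : Finset F,
    S = (Finset.range (ν 0)).image (fun i => t ^ i * z ^ (E + 1 - i)) ∪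
      (Finset.range (ν 1)).image (fun j => t ^ (E + 1 - j) * z ^ j) := ⟨_, rfl⟩
  have hScard : S.card ≤ d := by
    rw [hS]
    refine (Finset.card_union_le _ _).trans ?_
    have h1 := Finset.card_image_le (s := Finset.range (ν 0))
      (f := fun i => t ^ i * z ^ (E + 1 - i))
    have h2 := Finset.card_image_le (s := Finset.range (ν 1))
      (f := fun j => t ^ (E + 1 - j) * z ^ j)
    rw [Finset.card_range] at h1 h2
    omega
  have hred : ∀ j i : ℕ, i + j = E + 1 → t ^ i * z ^ j ∈
      ((TT3 K t z) ^ E ⊔ Submodule.span K (S : Set F) : Submodule K F) := by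
    intro j
    induction j using Nat.strong_induction_on with
    | _ j ih =>
    intro i hij
    by_cases hi : i < ν 0
    · apply Submodule.mem_sup_right
      apply Submodule.subset_span
      rw [Finset.mem_coe, hS, Finset.mem_union, Finset.mem_image]
      left
      exact ⟨i, Finset.mem_range.2 hi, by rw [show E + 1 - i = j by omega]⟩
    by_cases hj : j < ν 1
    · apply Submodule.mem_sup_right
      apply Submodule.subset_span
      rw [Finset.mem_coe, hS, Finset.mem_union, Finset.mem_image, Finset.mem_image]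
      right
      exact ⟨j, Finset.mem_range.2 hj, by rw [show E + 1 - j = i by omega]⟩
    push Not at hi hj
    have h1 : t ^ i * z ^ j = (t ^ (i - ν 0) * z ^ (j - ν 1)) * (t ^ ν 0 * z ^ ν 1) := by
      have h2 : t ^ i = t ^ (i - ν 0) * t ^ ν 0 := by rw [← pow_add]; congr 1; omega
      have h3 : z ^ j = z ^ (j - ν 1) * z ^ ν 1 := by rw [← pow_add]; congr 1; omega
      rw [h2, h3]
      ring
    rw [h1, hrel, Finset.mul_sum]
    refine Submodule.sum_mem _ fun μ hμ => ?_
    rw [mul_smul_comm]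
    apply Submodule.smul_mem
    have h2 : t ^ (i - ν 0) * z ^ (j - ν 1) * (t ^ μ 0 * z ^ μ 1) =
        t ^ (i - ν 0 + μ 0) * z ^ (j - ν 1 + μ 1) := by
      rw [pow_add, pow_add]
      ring
    rw [h2]
    rw [Finset.mem_erase] at hμ
    have h3 := hdeg μ hμ.2
    rcases h3.lt_or_eq with h4 | h4
    · exact Submodule.mem_sup_left (mem_TT3_pow t z _ _ E (by omega))
    · have h5 := hνmax μ hμ.2 h4
      have h6 : μ 1 ≠ ν 1 := by
        intro h6
        apply hμ.1
        ext k
        fin_cases k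
        · simp
          omega
        · exact h6
      exact ih (j - ν 1 + μ 1) (by omega) (i - ν 0 + μ 0) (by omega)
  have hle : (TT3 K t z) ^ (E + 1) ≤ (TT3 K t z) ^ E ⊔ Submodule.span K (S : Set F) := by
    refine (TT3_pow_le t z (E + 1)).trans ?_
    rw [Submodule.span_le]
    rintro _ ⟨i, j, hij, rfl⟩
    rcases hij.lt_or_eq with h1 | h1
    · exact Submodule.mem_sup_left (mem_TT3_pow t z i j E (by omega))
    · exact hred j i h1
  have hfdS : FiniteDimensional K (Submodule.span K (S : Set F)) :=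
    FiniteDimensional.span_finset K S
  refine (Submodule.finrank_mono hle).trans ?_
  refine (Submodule.finrank_add_le_finrank_add_finrank _ _).trans ?_
  have h1 : finrank K (Submodule.span K (S : Set F)) ≤ S.card :=
    finrank_span_finset_le_card (R := K) S
  omega

theorem TT3_bound (d : ℕ) (h : RelD K t d z) (E : ℕ) :
    finrank K ((TT3 K t z) ^ E : Submodule K F) ≤ d * E + 1 := by
  induction E with
  | zero =>
    rw [pow_zero, Nat.mul_zero, Nat.zero_add]
    have h1 : finrank K (1 : Submodule K F) ≤ 1 := by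
      rw [Submodule.one_eq_span]
      exact (finrank_span_singleton (one_ne_zero (α := F))).le
    exact h1
  | succ E ih =>
    have := TT3_step t z d h E
    rw [Nat.mul_succ]
    omega

end

end Pool.Agent.H72.SBP
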