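import Pool.Agent.H72.SBP.GRO

open Module

namespace Pool.Agent.H72.SBP

open Pool.Agent.H72.BF (T_SPC)

noncomputable section

theorem quarter (r : ℕ) : ((r + 1) / 2) * (r + 1 - (r + 1) / 2) = (r + 1) ^ 2 / 4 := by
  obtain ⟨m, hm | hm⟩ : ∃ m, r + 1 = 2 * m ∨ r + 1 = 2 * m + 1 := ⟨(r + 1) / 2, by omega⟩
  · rw [hm]
    have h1 : 2 * m / 2 = m := by omega
    have h2 : 2 * m - m = m := by omega
    rw [h1, h2]
    have h3 : (2 * m) ^ 2 = 4 * (m * m) := by ring
    rw [h3]
    omega
  · rw [hm]
    have h1 : (2 * m + 1) / 2 = m := by omega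
    have h2 : 2 * m + 1 - m = m + 1 := by omega
    rw [h1, h2]
    have h3 : (2 * m + 1) ^ 2 = 4 * (m * (m + 1)) + 1 := by ring
    rw [h3]
    omega

theorem hlb (hSPC : T_SPC) : T_HLB := by
  intro K F _ _ _ _ n r x y hx hy hyx d
  have hfin1 : finrank K (Submodule.span K (Set.range (Fin.cons 1 x : Fin (n + 1) → F))) =
      n + 1 := by
    rw [finrank_span_eq_card hx, Fintype.card_fin]
  -- r ≤ n
  have hrn : r ≤ n := by
    have h1 := prd K F r y hy 1 (fun _ => (1 : F)) (by
      rw [linearIndependent_unique_iff]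
      exact one_ne_zero)
    have h2 : Submodule.span K (Set.range (fun _ : Fin 1 => (1 : F))) = 1 := by
      rw [Set.range_const, Submodule.one_eq_span]
    rw [h2, mul_one] at h1
    have hfd : FiniteDimensional K
        (Submodule.span K (Set.range (Fin.cons 1 x : Fin (n + 1) → F))) :=
      FiniteDimensional.span_of_finite K (Set.finite_range _)
    have h3 := Submodule.finrank_mono (lin_mono x y hyx)
    rw [hfin1] at h3
    omega
  have hlin : ∀ d : ℕ, Submodule.span K (Set.range (Fin.cons 1 x : Fin (n + 1) → F)) ≤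
      Pool.Agent.H78.BF.imd K F n x (d + 1) := by
    intro d
    have h1 := Pool.Agent.H78.BF.imd_mul_le K F n x d
    refine le_trans ?_ h1
    intro v hv
    have h2 := Submodule.mul_mem_mul (Pool.Agent.H78.BF.one_mem_imd K F n x d) hv
    rwa [one_mul] at h2
  have hge : ∀ d : ℕ, n + 1 ≤ finrank K (Pool.Agent.H78.BF.imd K F n x (d + 1)) := by
    intro d
    rw [← hfin1]
    exact Submodule.finrank_mono (hlin d)
  have hcd : ∀ d : ℕ, finrank K (Pool.Agent.H78.BF.imd K F n x d) + n ≤
      finrank K (Pool.Agent.H78.BF.imd K F n x (d + 1)) := by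
    intro d
    have h1 := Pool.Agent.H78.BF.cd K F (Pool.Agent.H78.BF.imd K F n x d)
      (Pool.Agent.H78.BF.lin1 K F n x) inferInstance inferInstance
      (by
        intro h
        have := Pool.Agent.H78.BF.one_mem_imd K F n x d
        rw [h, Submodule.mem_bot] at this
        exact one_ne_zero this)
      (by
        intro h
        have h2 : (1 : F) ∈ Pool.Agent.H78.BF.lin1 K F n x :=
          Submodule.subset_span ⟨0, by rw [Fin.cons_zero]⟩
        rw [h, Submodule.mem_bot] at h2
        exact one_ne_zero h2)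
    have h2 : finrank K (Pool.Agent.H78.BF.lin1 K F n x) = n + 1 := hfin1
    rw [h2] at h1
    have h3 := Submodule.finrank_mono (Pool.Agent.H78.BF.imd_mul_le K F n x d)
    omega
  have hgr : ∀ d : ℕ, finrank K (Pool.Agent.H78.BF.imd K F n x (d + 1)) + (r + 1) ^ 2 / 4 ≤
      finrank K (Pool.Agent.H78.BF.imd K F n x (d + 2)) := by
    intro d
    rw [← quarter]
    exact gro hSPC K F n r x y hy hyx (d + 1) ((r + 1) / 2) (by
      have := hge d
      change (r + 1) / 2 ≤ finrank K (Pool.Agent.H78.BF.imd K F n x (d + 1))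
      omega)
  change (n + 1) + d * max n ((r + 1) ^ 2 / 4) ≤
    finrank K (Pool.Agent.H78.BF.imd K F n x (d + 1))
  induction d with
  | zero => simpa using hge 0
  | succ d ih =>
    have h1 := hgr d
    have h2 := hcd (d + 1)
    rw [Nat.succ_mul]
    have h3 : d + 1 + 1 = d + 2 := rfl
    rw [h3] at h2 ⊢
    rcases le_total n ((r + 1) ^ 2 / 4) with h | h
    · rw [max_eq_right h] at ih ⊢
      omega
    · rw [max_eq_left h] at ih ⊢
      omega

end

end Pool.Agent.H72.SBP
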