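import Pool.Agent.H72.SBP.Deg4
import Pool.Agent.H72.SBP.HLB
import Pool.Agent.H35.BF.RD
import Mathlib.RingTheory.AlgebraicIndependent.TranscendenceBasis
import Mathlib.Combinatorics.Matroid.Rank.ENat

open Module

namespace Pool.Agent.H72.SBP

open Pool.Agent.H72.BF (T_SPC RelD)

noncomputable section

variable {K F : Type} [Field K] [Field F] [Algebra K F]

theorem alg_of_rel (A : Subalgebra K F) (t : F) (htA : t ∈ A) (ht : Transcendental K t) (d : ℕ)
    (z : F) (h : RelD K t d z) : IsAlgebraic A z := by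
  rw [Pool.Agent.H35.BF.RD.relD_iff] at h
  obtain ⟨P, hP, _, h0⟩ := h
  obtain ⟨f, hf⟩ : ∃ f : Polynomial K →ₐ[K] A, f = Polynomial.aeval (⟨t, htA⟩ : A) := ⟨_, rfl⟩
  have hcomp : ∀ q : Polynomial K, algebraMap A F (f q) = Polynomial.aeval t q := by
    intro q
    rw [hf]
    have h1 := Polynomial.aeval_algebraMap_apply F (⟨t, htA⟩ : A) q
    exact h1.symm
  have hinj : Function.Injective f := by
    intro q q' hq
    have h1 := congrArg (algebraMap A F) hq
    rw [hcomp, hcomp] at h1
    exact (transcendental_iff_injective.1 ht) h1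
  refine ⟨P.map f.toRingHom, ?_, ?_⟩
  · intro h1
    exact hP ((Polynomial.map_eq_zero_iff hinj).1 h1)
  · rw [Polynomial.aeval_def, Polynomial.eval₂_map]
    rw [← h0]
    congr 1
    exact RingHom.ext hcomp

theorem dep_pair (t : F) (ht : Transcendental K t) (d : ℕ) (x y : F) (hx : RelD K t d x)
    (hy : RelD K t d y) :
    ∃ Q : MvPolynomial (Fin 2) K, Q ≠ 0 ∧ MvPolynomial.aeval ![x, y] Q = 0 := by
  by_contra hcon
  push Not at hcon
  have hind : AlgebraicIndependent K ![x, y] := by
    rw [algebraicIndependent_iff]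
    intro p hp
    by_contra hp0
    exact hcon p hp0 hp
  have h1 : (AlgebraicIndependent.matroid K F).Indep (Set.range ![x, y]) := by
    rw [AlgebraicIndependent.matroid_indep_iff]
    exact hind.to_subtype_range
  have hmem : ∀ z, RelD K t d z → z ∈ (AlgebraicIndependent.matroid K F).closure {t} := by
    intro z hz
    rw [AlgebraicIndependent.matroid_closure_eq]
    exact alg_of_rel (Algebra.adjoin K {t}) t (Algebra.subset_adjoin rfl) ht d z hz
  have hsub : Set.range ![x, y] ⊆ (AlgebraicIndependent.matroid K F).closure {t} := by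
    rintro _ ⟨i, rfl⟩
    fin_cases i
    · exact hmem x hx
    · exact hmem y hy
  have h2 := h1.encard_le_eRk_of_subset hsub
  rw [Matroid.eRk_closure_eq] at h2
  have h3 := h2.trans ((AlgebraicIndependent.matroid K F).eRk_le_encard {t})
  rw [Set.encard_singleton] at h3
  have hinj : Function.Injective ![x, y] := hind.injective
  have h4 : (Set.range ![x, y]).encard = 2 := by
    rw [← Set.image_univ, hinj.encard_image, Set.encard_univ]
    simp
  rw [h4] at h3
  exact absurd h3 (by decide)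


/-- elements of a finitely generated subalgebra lie in a power of the generating space -/
theorem mem_TT3_of_adjoin (t z u : F) (hu : u ∈ Algebra.adjoin K {t, z}) :
    ∃ c, u ∈ (TT3 K t z) ^ c := by
  induction hu using Algebra.adjoin_induction with
  | mem x hx =>
    refine ⟨1, ?_⟩
    rw [pow_one]
    rcases hx with rfl | hx
    · exact t_mem_TT3 _ _
    · rw [Set.mem_singleton_iff] at hx
      rw [hx]
      exact z_mem_TT3 _ _
  | algebraMap r =>
    refine ⟨0, ?_⟩
    rw [pow_zero]
    exact Submodule.algebraMap_mem r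
  | add x y _ _ hx hy =>
    obtain ⟨c, hc⟩ := hx
    obtain ⟨c', hc'⟩ := hy
    exact ⟨max c c', Submodule.add_mem _ (TT3_mono t z (le_max_left _ _) hc)
      (TT3_mono t z (le_max_right _ _) hc')⟩
  | mul x y _ _ hx hy =>
    obtain ⟨c, hc⟩ := hx
    obtain ⟨c', hc'⟩ := hy
    exact ⟨c + c', by rw [pow_add]; exact Submodule.mul_mem_mul hc hc'⟩

/-- a common denominator -/
theorem exists_den (t z : F) (V : Submodule K F) (hV : FiniteDimensional K V)
    (h : ∀ u ∈ V, u ∈ IntermediateField.adjoin K {t, z}) :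
    ∃ (g : F) (c : ℕ), g ≠ 0 ∧ ∀ u ∈ V, g * u ∈ (TT3 K t z) ^ c := by
  classical
  obtain ⟨q, hq⟩ : ∃ q, q = finrank K V := ⟨_, rfl⟩
  obtain ⟨b⟩ : Nonempty (Basis (Fin q) K V) := ⟨Module.finBasisOfFinrankEq K _ hq.symm⟩
  have h1 : ∀ i, ∃ a ∈ Algebra.adjoin K {t, z}, ∃ s ∈ Algebra.adjoin K {t, z}, s ≠ 0 ∧
      s * (b i).1 = a := by
    intro i
    have h2 := h (b i).1 (b i).2
    rw [IntermediateField.mem_adjoin_iff_div] at h2
    obtain ⟨a, ha, s, hs, h3⟩ := h2
    by_cases hs0 : s = 0
    · refine ⟨0, Subalgebra.zero_mem _, 1, Subalgebra.one_mem _, one_ne_zero, ?_⟩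
      rw [h3, hs0, div_zero, mul_zero]
    · exact ⟨a, ha, s, hs, hs0, by rw [h3, mul_div_cancel₀ _ hs0]⟩
  choose a ha s hs hs0 has using h1
  obtain ⟨g, hg⟩ : ∃ g, g = ∏ i, s i := ⟨_, rfl⟩
  have h2 : ∀ i, g * (b i).1 ∈ Algebra.adjoin K {t, z} := by
    intro i
    rw [hg, ← Finset.prod_erase_mul _ _ (Finset.mem_univ i), mul_assoc, has]
    exact Subalgebra.mul_mem _ (Subalgebra.prod_mem _ fun k _ => hs k) (ha i)
  choose c hc using fun i => mem_TT3_of_adjoin t z _ (h2 i)
  refine ⟨g, ∑ i, c i, ?_, ?_⟩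
  · rw [hg]
    exact Finset.prod_ne_zero_iff.2 fun i _ => hs0 i
  · intro u hu
    have h3 : u = ∑ i, b.repr ⟨u, hu⟩ i • (b i).1 := by
      have h4 := congrArg Subtype.val (b.sum_repr ⟨u, hu⟩)
      rw [AddSubmonoidClass.coe_finsetSum] at h4
      exact h4.symm
    rw [h3, Finset.mul_sum]
    refine Submodule.sum_mem _ fun i _ => ?_
    rw [mul_smul_comm]
    apply Submodule.smul_mem
    exact TT3_mono t z (Finset.single_le_sum (fun _ _ => Nat.zero_le _) (Finset.mem_univ i)) (hc i)

/-- linear growth with slope at most `d` -/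
theorem growth_upper [CharZero K] [IsAlgClosed K] (t : F) (ht : Transcendental K t) (d : ℕ)
    (W : Submodule K F) (hW : FiniteDimensional K W) (h1 : (1 : F) ∈ W) (htW : t ∈ W)
    (hrel : ∀ z ∈ W, RelD K t d z) :
    ∃ e1 c : ℕ, ∀ e : ℕ, finrank K (W ^ (e1 + e) : Submodule K F) ≤ d * (e + c) + 1 := by
  classical
  obtain ⟨m, hm⟩ : ∃ m, m = finrank K W := ⟨_, rfl⟩
  obtain ⟨b⟩ : Nonempty (Basis (Fin m) K W) := ⟨Module.finBasisOfFinrankEq K _ hm.symm⟩
  obtain ⟨w, hw⟩ : ∃ w : Fin m → F, w = fun j => (b j).1 := ⟨_, rfl⟩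
  have hwW : ∀ j, w j ∈ W := fun j => by rw [hw]; exact (b j).2
  have hspan : Submodule.span K (Set.range w) = W := by
    have h3 := b.span_eq
    have h4 := congrArg (Submodule.map W.subtype) h3
    rw [Submodule.map_span, Submodule.map_top, Submodule.range_subtype] at h4
    refine Eq.trans ?_ h4
    rw [← Set.range_comp, hw]
    rfl
  have hcoord : ∀ u ∈ W, ∃ c : Fin m → K, vl w c = u := by
    intro u hu
    refine ⟨b.repr ⟨u, hu⟩, ?_⟩
    have h4 := congrArg Subtype.val (b.sum_repr ⟨u, hu⟩)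
    rw [AddSubmonoidClass.coe_finsetSum] at h4
    refine Eq.trans ?_ h4
    unfold vl
    refine Finset.sum_congr rfl fun j _ => ?_
    rw [hw, Submodule.coe_smul, Algebra.smul_def]
  have hvW : ∀ c : Fin m → K, vl w c ∈ W := by
    intro c
    unfold vl
    refine Submodule.sum_mem _ fun j _ => ?_
    rw [← Algebra.smul_def]
    exact W.smul_mem _ (hwW j)
  obtain ⟨one', hone⟩ := hcoord 1 h1
  obtain ⟨ct, hct⟩ := hcoord t htW
  obtain ⟨S, hS, hgen⟩ := gen_z w one' ct hone (fun c c' =>
    dep_pair t ht d _ _ (hrel _ (hvW c)) (hrel _ (hvW c')))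
  obtain ⟨E0, hE0⟩ : ∃ E0 : IntermediateField K F, E0 = IntermediateField.adjoin K {t} := ⟨_, rfl⟩
  have htE0 : t ∈ E0 := by
    rw [hE0]
    exact IntermediateField.mem_adjoin_simple_self _ _
  obtain ⟨cz, hcz, hprim⟩ := exists_prim w E0 (fun j =>
    alg_of_rel E0.toSubalgebra t htE0 ht d (w j) (hrel _ (hwW j))) S hS
  obtain ⟨e1, he1⟩ := hgen cz hcz
  obtain ⟨z, hz⟩ : ∃ z, z = vl w cz := ⟨_, rfl⟩
  have hzW : z ∈ W := by rw [hz]; exact hvW cz
  rw [hspan, hct, ← hz] at he1
  have hT : (Submodule.span K {1, t, z} : Submodule K F) = TT3 K t z := rfl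
  rw [hT] at he1
  have hfdW : ∀ e : ℕ, FiniteDimensional K (W ^ e : Submodule K F) := by
    intro e
    exact Module.Finite.iff_fg.2 (Submodule.FG.pow (Module.Finite.iff_fg.1 hW) e)
  -- W ⊆ K(t, z)
  have hwz : ∀ j, w j ∈ IntermediateField.adjoin K {t, z} := by
    intro j
    have h3 := hprim j
    rw [← hz] at h3
    have h4 : w j ∈ (IntermediateField.adjoin E0 {z}).restrictScalars K := h3
    have h5 : (IntermediateField.adjoin E0 {z}).restrictScalars K =
        IntermediateField.adjoin K ({t} ∪ {z}) := by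
      rw [← IntermediateField.adjoin_adjoin_left, ← hE0]
    rw [h5] at h4
    have h6 : ({t} ∪ {z} : Set F) = {t, z} := by
      rw [Set.singleton_union]
    rwa [h6] at h4
  have hWA : W ≤ Subalgebra.toSubmodule (IntermediateField.adjoin K {t, z}).toSubalgebra := by
    rw [← hspan, Submodule.span_le]
    rintro _ ⟨j, rfl⟩
    exact hwz j
  have hWpA : ∀ e : ℕ, W ^ e ≤
      Subalgebra.toSubmodule (IntermediateField.adjoin K {t, z}).toSubalgebra := by
    intro e
    induction e with
    | zero =>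
      rw [pow_zero, Submodule.one_le]
      exact one_mem (IntermediateField.adjoin K {t, z})
    | succ e ih =>
      rw [pow_succ, Submodule.mul_le]
      intro u hu v hv
      exact mul_mem (S := IntermediateField K F) (s := IntermediateField.adjoin K {t, z})
        (ih hu) (hWA hv)
  obtain ⟨g, c, hg0, hg⟩ := exists_den t z (W ^ e1) (hfdW e1) (fun u hu => hWpA e1 hu)
  refine ⟨e1, c, fun e => ?_⟩
  have hpow : ∀ e : ℕ, W ^ (e1 + e) ≤ (TT3 K t z) ^ e * W ^ e1 := by
    intro e
    induction e with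
    | zero => rw [add_zero, pow_zero, one_mul]
    | succ e ih =>
      rw [← add_assoc]
      refine (he1 (e1 + e) (by omega)).trans ?_
      rw [pow_succ', mul_assoc]
      exact mul_le_mul' le_rfl ih
  -- multiplication by g
  have hmul : (W ^ (e1 + e)).map (LinearMap.mulLeft K g) ≤ (TT3 K t z) ^ (e + c) := by
    rintro _ ⟨u, hu, rfl⟩
    have h3 := hpow e hu
    clear hu
    rw [LinearMap.mulLeft_apply]
    induction h3 using Submodule.mul_induction_on' with
    | mem_mul_mem x hx y hy =>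
      have h4 : g * (x * y) = x * (g * y) := by ring
      rw [h4, pow_add]
      exact Submodule.mul_mem_mul hx (hg y hy)
    | add x _ y _ hx hy =>
      rw [mul_add]
      exact Submodule.add_mem _ hx hy
  have h5 := Submodule.finrank_mono hmul
  have h6 : finrank K ((W ^ (e1 + e)).map (LinearMap.mulLeft K g)) =
      finrank K (W ^ (e1 + e) : Submodule K F) :=
    (LinearEquiv.finrank_eq (Submodule.equivMapOfInjective (LinearMap.mulLeft K g) (by
      intro x y hxy
      exact mul_left_cancel₀ hg0 hxy) (W ^ (e1 + e)))).symm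
  rw [h6] at h5
  exact h5.trans (TT3_bound t z d (hrel z hzW) (e + c))


/-- a linear space of functions of degree at most `d` over `t` which contains a tuple with the half
rank property -/
theorem deg_bound [CharZero K] [IsAlgClosed K] (hSPC : T_SPC) (t : F) (ht : Transcendental K t)
    (d : ℕ) (W : Submodule K F) (hW : FiniteDimensional K W) (h1 : (1 : F) ∈ W) (htW : t ∈ W)
    (hrel : ∀ z ∈ W, RelD K t d z) {r : ℕ} (y : Fin r → F) (hy : HRP K F y)
    (hyW : ∀ k, y k ∈ W) : (r + 1) ^ 2 / 4 ≤ d := by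
  classical
  obtain ⟨e1, c, hup⟩ := growth_upper t ht d W hW h1 htW hrel
  obtain ⟨m, hm⟩ : ∃ m, m = finrank K W := ⟨_, rfl⟩
  obtain ⟨b⟩ : Nonempty (Basis (Fin m) K W) := ⟨Module.finBasisOfFinrankEq K _ hm.symm⟩
  obtain ⟨w, hw⟩ : ∃ w : Fin m → F, w = fun j => (b j).1 := ⟨_, rfl⟩
  have hspan : Submodule.span K (Set.range w) = W := by
    have h3 := b.span_eq
    have h4 := congrArg (Submodule.map W.subtype) h3
    rw [Submodule.map_span, Submodule.map_top, Submodule.range_subtype] at h4
    refine Eq.trans ?_ h4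
    rw [← Set.range_comp, hw]
    rfl
  have hfdW : ∀ e : ℕ, FiniteDimensional K (W ^ e : Submodule K F) := by
    intro e
    exact Module.Finite.iff_fg.2 (Submodule.FG.pow (Module.Finite.iff_fg.1 hW) e)
  obtain ⟨L, hL⟩ : ∃ L : Submodule K F,
    L = Submodule.span K (Set.range (Fin.cons 1 y : Fin (r + 1) → F)) := ⟨_, rfl⟩
  have hLW : L ≤ W := by
    rw [hL, Submodule.span_le]
    rintro _ ⟨k, rfl⟩
    refine Fin.cases ?_ (fun k => ?_) k
    · rw [Fin.cons_zero]
      exact h1
    · rw [Fin.cons_succ]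
      exact hyW k
  have hstep : ∀ e : ℕ, W ^ e ≤ W ^ (e + 1) := by
    intro e u hu
    rw [pow_succ]
    have h3 := Submodule.mul_mem_mul hu h1
    rwa [mul_one] at h3
  have hW1 : ∀ e : ℕ, W ≤ W ^ (e + 1) := by
    intro e
    induction e with
    | zero => rw [zero_add, pow_one]
    | succ e ih => exact ih.trans (hstep (e + 1))
  -- r + 1 ≤ dim W
  have hrm : r + 1 ≤ finrank K W := by
    have h3 := prd K F r y hy 1 (fun _ => (1 : F)) (by
      rw [linearIndependent_unique_iff]
      exact one_ne_zero)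
    have h4 : Submodule.span K (Set.range (fun _ : Fin 1 => (1 : F))) = 1 := by
      rw [Set.range_const, Submodule.one_eq_span]
    rw [h4, mul_one, ← hL] at h3
    have h5 := Submodule.finrank_mono hLW
    omega
  obtain ⟨R, hR⟩ : ∃ R : Submodule K F, R =
    LinearMap.range (MvPolynomial.aeval w : MvPolynomial (Fin m) K →ₐ[K] F).toLinearMap :=
    ⟨_, rfl⟩
  have hWR : W ≤ R := by
    rw [← hspan, Submodule.span_le, hR]
    rintro _ ⟨j, rfl⟩
    exact ⟨MvPolynomial.X j, by simp⟩
  have hWpR : ∀ e : ℕ, W ^ e ≤ R := by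
    intro e
    induction e with
    | zero =>
      rw [pow_zero, Submodule.one_le, hR]
      exact ⟨1, by simp⟩
    | succ e ih =>
      rw [pow_succ, Submodule.mul_le]
      intro u hu v hv
      have hu' := ih hu
      have hv' := hWR hv
      rw [hR] at hu' hv' ⊢
      obtain ⟨f, rfl⟩ := hu'
      obtain ⟨f', rfl⟩ := hv'
      exact ⟨f * f', by simp⟩
  have hgrow : ∀ e : ℕ, finrank K (W ^ (e + 1) : Submodule K F) + (r + 1) ^ 2 / 4 ≤
      finrank K (W ^ (e + 2) : Submodule K F) := by
    intro e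
    rw [← quarter]
    refine gro_aux hSPC w y hy L R hR hL (hLW.trans hWR) ((r + 1) / 2)
      (finrank K (W ^ (e + 1) : Submodule K F)) (W ^ (e + 1)) (W ^ (e + 2)) (hfdW _) (hfdW _)
      (hstep (e + 1)) (hWpR _) ?_ ?_ (by omega)
    · rw [show e + 2 = (e + 1) + 1 from rfl, pow_succ' W (e + 1)]
      exact mul_le_mul' hLW le_rfl
    · have h3 := Submodule.finrank_mono (hW1 e)
      omega
  have hlow : ∀ e : ℕ, e * ((r + 1) ^ 2 / 4) + 1 ≤ finrank K (W ^ (e + 1) : Submodule K F) := by
    intro e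
    induction e with
    | zero =>
      rw [zero_mul, zero_add, pow_one]
      omega
    | succ e ih =>
      have h3 := hgrow e
      rw [Nat.succ_mul]
      have h4 : e + 1 + 1 = e + 2 := rfl
      rw [h4]
      omega
  by_contra hcon
  push Not at hcon
  have h3 := hlow (e1 + (d * c + d + 3) - 1)
  have h4 := hup (d * c + d + 3)
  have h5 : e1 + (d * c + d + 3) - 1 + 1 = e1 + (d * c + d + 3) := by omega
  rw [h5] at h3
  have h6 : (d * c + d + 2) * (d + 1) ≤ (e1 + (d * c + d + 3) - 1) * ((r + 1) ^ 2 / 4) :=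
    Nat.mul_le_mul (by omega) hcon
  nlinarith

end

end Pool.Agent.H72.SBP
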