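import Pool.Agent.H72.SBP.PRD
import Pool.Agent.H78.BF.CDP
import Pool.Agent.H78.BF.SPC

open Module

namespace Pool.Agent.H72.SBP

open Pool.Agent.H72.BF (T_SPC)

noncomputable section

variable {K F : Type} [Field K] [Field F] [Algebra K F]

theorem lin_mono {n r : ℕ} (x : Fin n → F) (y : Fin r → F)
    (hy : ∀ k, y k ∈ Submodule.span K (Set.range (Fin.cons 1 x : Fin (n + 1) → F))) :
    Submodule.span K (Set.range (Fin.cons 1 y : Fin (r + 1) → F)) ≤
      Submodule.span K (Set.range (Fin.cons 1 x : Fin (n + 1) → F)) := by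
  rw [Submodule.span_le]
  rintro _ ⟨k, rfl⟩
  refine Fin.cases ?_ (fun k => ?_) k
  · rw [Fin.cons_zero]
    exact Submodule.subset_span ⟨0, by rw [Fin.cons_zero]⟩
  · rw [Fin.cons_succ]
    exact hy k

/-- removing points -/
theorem gro_aux [IsAlgClosed K] (hSPC : T_SPC) {n r : ℕ} (x : Fin n → F) (y : Fin r → F)
    (hy : HRP K F y) (L R : Submodule K F)
    (hR : R = LinearMap.range (MvPolynomial.aeval x : MvPolynomial (Fin n) K →ₐ[K] F).toLinearMap)
    (hL : L = Submodule.span K (Set.range (Fin.cons 1 y : Fin (r + 1) → F))) (hLR : L ≤ R)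
    (p : ℕ) : ∀ (e : ℕ) (S S' : Submodule K F), FiniteDimensional K S → FiniteDimensional K S' →
      S ≤ S' → S' ≤ R → L * S ≤ S' → p ≤ finrank K S → finrank K S ≤ p + e →
      finrank K S + p * (r + 1 - p) ≤ finrank K S' := by
  have hbase : ∀ (S S' : Submodule K F), FiniteDimensional K S → FiniteDimensional K S' →
      S ≤ S' → S' ≤ R → L * S ≤ S' → p = finrank K S →
      finrank K S + p * (r + 1 - p) ≤ finrank K S' := by
    intro S S' hS hS' hSS _ hLS hp
    rcases Nat.lt_or_ge p (r + 1) with h | h
    · obtain ⟨b⟩ : Nonempty (Basis (Fin p) K S) := ⟨Module.finBasisOfFinrankEq K _ hp.symm⟩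
      have h1 := prd K F r y hy p (fun i => (b i).1)
        (b.linearIndependent.map' S.subtype (Submodule.ker_subtype S))
      have h2 : Submodule.span K (Set.range (fun i => (b i).1)) = S := by
        have h3 := b.span_eq
        have h4 := congrArg (Submodule.map S.subtype) h3
        rw [Submodule.map_span, Submodule.map_top, Submodule.range_subtype] at h4
        refine Eq.trans ?_ h4
        rw [← Set.range_comp]
        rfl
      rw [h2, ← hL] at h1
      have h5 := Submodule.finrank_mono hLS
      obtain ⟨s, hs⟩ : ∃ s, r + 1 = p + s := ⟨r + 1 - p, by omega⟩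
      have h6 : r + 1 - p = s := by omega
      have h7 : r + 2 - p = s + 1 := by omega
      rw [h7] at h1
      rw [← hp, h6]
      nlinarith
    · have h1 : r + 1 - p = 0 := by omega
      rw [h1, Nat.mul_zero, Nat.add_zero]
      exact Submodule.finrank_mono hSS
  intro e
  induction e with
  | zero =>
    intro S S' hS hS' hSS hSR hLS hp hp'
    exact hbase S S' hS hS' hSS hSR hLS (by omega)
  | succ e ih =>
    intro S S' hS hS' hSS hSR hLS hp hp'
    rcases hp.eq_or_lt with h | h
    · exact hbase S S' hS hS' hSS hSR hLS h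
    -- a nonzero element of S
    have hne : S ≠ ⊥ := by
      intro h1
      rw [h1, finrank_bot] at h
      omega
    obtain ⟨f, hfS, hf0⟩ := Submodule.exists_mem_ne_zero_of_ne_bot hne
    have hfR : f ∈ R := hSR (hSS hfS)
    rw [hR] at hfR
    obtain ⟨f0, hf0'⟩ := hfR
    have hf0'' : MvPolynomial.aeval x f0 = f := hf0'
    obtain ⟨a, ha, haf⟩ := hSPC K F n x f0 (by rw [hf0'']; exact hf0)
    -- the functional
    obtain ⟨E0, hE0⟩ : ∃ E0 : R →ₗ[K] K, ∀ g : MvPolynomial (Fin n) K,
        ∀ h : MvPolynomial.aeval x g ∈ R, E0 ⟨MvPolynomial.aeval x g, h⟩ =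
          MvPolynomial.eval a g := by
      have hsurj : ∀ v : R, ∃ g : MvPolynomial (Fin n) K, MvPolynomial.aeval x g = v.1 := by
        intro v
        obtain ⟨g, hg⟩ := hR.le v.2
        exact ⟨g, hg⟩
      choose G hG using hsurj
      have hwd : ∀ g g' : MvPolynomial (Fin n) K, MvPolynomial.aeval x g = MvPolynomial.aeval x g' →
          MvPolynomial.eval a g = MvPolynomial.eval a g' := by
        intro g g' h1
        have h2 := ha (g - g') (by rw [map_sub, h1, sub_self])
        rw [map_sub] at h2
        exact sub_eq_zero.1 h2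
      refine ⟨{ toFun := fun v => MvPolynomial.eval a (G v), map_add' := ?_, map_smul' := ?_ }, ?_⟩
      · intro v w
        rw [← map_add]
        apply hwd
        rw [hG, map_add, hG, hG]
        rfl
      · intro c v
        have h1 := hwd (G (c • v)) (MvPolynomial.C c * G v) (by
          rw [hG, map_mul, hG, MvPolynomial.aeval_C, Submodule.coe_smul, Algebra.smul_def])
        rw [h1, map_mul, MvPolynomial.eval_C]
        rfl
      · intro g h
        exact hwd _ _ (hG _)
    obtain ⟨E, hE⟩ := LinearMap.exists_extend E0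
    have hEg : ∀ g : MvPolynomial (Fin n) K, E (MvPolynomial.aeval x g) =
        MvPolynomial.eval a g := by
      intro g
      have hg : MvPolynomial.aeval x g ∈ R := by rw [hR]; exact ⟨g, rfl⟩
      have := congrArg (fun T : R →ₗ[K] K => T ⟨_, hg⟩) hE
      simp only [LinearMap.comp_apply, Submodule.subtype_apply] at this
      rw [this, hE0]
    have hEmul : ∀ u ∈ R, ∀ v ∈ R, E (u * v) = E u * E v := by
      intro u hu v hv
      rw [hR] at hu hv
      obtain ⟨g, rfl⟩ := hu
      obtain ⟨g', rfl⟩ := hv
      simp only [AlgHom.toLinearMap_apply]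
      rw [← map_mul, hEg, hEg, hEg, map_mul]
    have hEf : E f ≠ 0 := by
      rw [← hf0'', hEg]
      exact haf
    -- dimensions
    have hdim : ∀ T : Submodule K F, FiniteDimensional K T →
        finrank K T ≤ finrank K (T ⊓ LinearMap.ker E : Submodule K F) + 1 := by
      intro T hT
      have h1 := LinearMap.finrank_range_add_finrank_ker (E.domRestrict T)
      have h2 : finrank K (LinearMap.range (E.domRestrict T)) ≤ 1 := by
        have := Submodule.finrank_le (LinearMap.range (E.domRestrict T))
        rwa [Module.finrank_self] at this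
      have h3 : finrank K (LinearMap.ker (E.domRestrict T)) ≤
          finrank K (T ⊓ LinearMap.ker E : Submodule K F) := by
        have h4 : (LinearMap.ker (E.domRestrict T)).map T.subtype ≤ T ⊓ LinearMap.ker E := by
          rintro _ ⟨v, hv, rfl⟩
          refine ⟨v.2, ?_⟩
          exact hv
        have h5 := Submodule.finrank_mono h4
        rwa [Submodule.finrank_map_subtype_eq] at h5
      omega
    have hlt : ∀ T : Submodule K F, FiniteDimensional K T → f ∈ T →
        finrank K (T ⊓ LinearMap.ker E : Submodule K F) < finrank K T := by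
      intro T hT hfT
      apply Submodule.finrank_lt_finrank_of_lt
      refine lt_of_le_of_ne inf_le_left ?_
      intro h1
      have h2 : f ∈ T ⊓ LinearMap.ker E := by rw [h1]; exact hfT
      exact hEf h2.2
    have hS1 := hdim S hS
    have hS1' := hlt S hS hfS
    have hS2 := hlt S' hS' (hSS hfS)
    have hfd1 : FiniteDimensional K (S ⊓ LinearMap.ker E : Submodule K F) :=
      Submodule.finiteDimensional_of_le (inf_le_left : S ⊓ LinearMap.ker E ≤ S)
    have hfd2 : FiniteDimensional K (S' ⊓ LinearMap.ker E : Submodule K F) :=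
      Submodule.finiteDimensional_of_le (inf_le_left : S' ⊓ LinearMap.ker E ≤ S')
    have hLS' : L * (S ⊓ LinearMap.ker E) ≤ S' ⊓ LinearMap.ker E := by
      rw [Submodule.mul_le]
      intro u hu v hv
      refine ⟨hLS (Submodule.mul_mem_mul hu hv.1), ?_⟩
      have h1 := hEmul u (hLR hu) v (hSR (hSS hv.1))
      have h2 : E v = 0 := hv.2
      rw [h2, mul_zero] at h1
      exact h1
    have := ih (S ⊓ LinearMap.ker E) (S' ⊓ LinearMap.ker E) hfd1 hfd2
      (inf_le_inf_right _ hSS) (inf_le_left.trans hSR) hLS' (by omega) (by omega)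
    omega

theorem gro (hSPC : T_SPC) : T_GRO := by
  intro K F _ _ _ _ n r x y hy hyx d p hp
  have hS : FiniteDimensional K (Pool.Agent.H78.BF.imd K F n x d) := inferInstance
  have hS' : FiniteDimensional K (Pool.Agent.H78.BF.imd K F n x (d + 1)) := inferInstance
  have hle : Submodule.span K (Set.range (Fin.cons 1 x : Fin (n + 1) → F)) ≤
      LinearMap.range (MvPolynomial.aeval x : MvPolynomial (Fin n) K →ₐ[K] F).toLinearMap := by
    rw [Submodule.span_le]
    rintro _ ⟨k, rfl⟩
    refine Fin.cases ?_ (fun k => ?_) k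
    · exact ⟨1, by simp⟩
    · exact ⟨MvPolynomial.X k, by simp⟩
  refine gro_aux hSPC x y hy _ _ rfl rfl ((lin_mono x y hyx).trans hle) p
    (finrank K (Pool.Agent.H78.BF.imd K F n x d))
    (Pool.Agent.H78.BF.imd K F n x d) (Pool.Agent.H78.BF.imd K F n x (d + 1)) hS hS' ?_ ?_ ?_ hp
    (by omega)
  · unfold Pool.Agent.H78.BF.imd
    apply Submodule.map_mono
    intro q hq
    rw [MvPolynomial.mem_restrictTotalDegree] at hq ⊢
    omega
  · rintro _ ⟨q, _, rfl⟩
    exact ⟨q, rfl⟩
  · refine le_trans ?_ (Pool.Agent.H78.BF.imd_mul_le K F n x d)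
    rw [Submodule.mul_comm]
    exact mul_le_mul' le_rfl (lin_mono x y hyx)

end

end Pool.Agent.H72.SBP
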