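import Pool.Agent.H72.SBP.Targets

open Module

namespace Pool.Agent.H72.SBP

noncomputable section

variable {K F : Type} [Field K] [Field F] [Algebra K F] {n p : ℕ}

/-- the multiplication map -/
def phi (x : Fin n → F) (b : Fin p → F) : (Fin (n + 1) → Fin p → K) →ₗ[K] F :=
  ∑ k : Fin (n + 1), ∑ j : Fin p,
    (LinearMap.toSpanSingleton K F ((Fin.cons 1 x : Fin (n + 1) → F) k * b j)) ∘ₗ
      (LinearMap.proj j) ∘ₗ (LinearMap.proj k)

theorem phi_apply (x : Fin n → F) (b : Fin p → F) (r : Fin (n + 1) → Fin p → K) :
    phi x b r = ∑ k, (Fin.cons 1 x : Fin (n + 1) → F) k * ∑ j, algebraMap K F (r k j) * b j := by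
  simp only [phi, LinearMap.sum_apply, LinearMap.comp_apply, LinearMap.proj_apply,
    LinearMap.toSpanSingleton_apply, Algebra.smul_def]
  refine Finset.sum_congr rfl fun k _ => ?_
  rw [Finset.mul_sum]
  refine Finset.sum_congr rfl fun j _ => ?_
  ring

theorem mvK_mulVec {l : ℕ} (x : Fin n → F) (A : Fin (n + 1) → Matrix (Fin l) (Fin p) K)
    (b : Fin p → F) (i : Fin l) :
    (MvK x A).mulVec b i = phi x b (fun k j => A k i j) := by
  rw [phi_apply, Fin.sum_univ_succ]
  simp only [Fin.cons_zero, Fin.cons_succ, one_mul, Matrix.mulVec, dotProduct, MvK, add_mul,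
    Finset.sum_add_distrib, Finset.sum_mul]
  congr 1
  rw [Finset.sum_comm]
  refine Finset.sum_congr rfl fun k _ => ?_
  rw [Finset.mul_sum]
  refine Finset.sum_congr rfl fun j _ => ?_
  ring

theorem ker_le (x : Fin n → F) (hx : HRP K F x) : ∀ (p : ℕ) (b : Fin p → F),
    LinearIndependent K b → finrank K (LinearMap.ker (phi (K := K) x b)) ≤ p * (p - 1) := by
  intro p
  induction p using Nat.strong_induction_on with
  | _ p ih =>
  intro b hb
  rcases Nat.eq_zero_or_pos p with hp | hp
  · subst hp
    have h1 : finrank K (LinearMap.ker (phi (K := K) x b)) ≤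
        finrank K (Fin (n + 1) → Fin 0 → K) := Submodule.finrank_le _
    have h2 : finrank K (Fin (n + 1) → Fin 0 → K) = 0 := Module.finrank_zero_of_subsingleton
    omega
  obtain ⟨l, hl⟩ : ∃ l, l = finrank K (LinearMap.ker (phi (K := K) x b)) := ⟨_, rfl⟩
  obtain ⟨r⟩ : Nonempty (Basis (Fin l) K (LinearMap.ker (phi (K := K) x b))) :=
    ⟨Module.finBasisOfFinrankEq K _ hl.symm⟩
  obtain ⟨A, hA⟩ : ∃ A : Fin (n + 1) → Matrix (Fin l) (Fin p) K,
    A = fun k i j => (r i).1 k j := ⟨_, rfl⟩
  rw [← hl]
  have hmul : (MvK x A).mulVec b = 0 := by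
    funext i
    rw [mvK_mulVec, hA]
    exact (r i).2
  have hrank : (MvK x A).rank ≤ p - 1 := by
    have h1 := LinearMap.finrank_range_add_finrank_ker (MvK x A).mulVecLin
    have h2 : 1 ≤ finrank F (LinearMap.ker (MvK x A).mulVecLin) := by
      rw [Nat.one_le_iff_ne_zero, ne_eq, Submodule.finrank_eq_zero]
      intro h3
      have h4 : b ∈ LinearMap.ker (MvK x A).mulVecLin := by
        rw [LinearMap.mem_ker, Matrix.mulVecLin_apply, hmul]
      rw [h3, Submodule.mem_bot] at h4
      have h5 := hb.ne_zero (⟨0, hp⟩ : Fin p)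
      exact h5 (congrFun h4 _)
    rw [Module.finrank_fintype_fun_eq_card, Fintype.card_fin] at h1
    unfold Matrix.rank
    omega
  by_cases hs : SemiK A
  · have h1 := hx l p A hs
    have h2 : l * p ≤ (p - 1) * (l + p) := h1.trans (Nat.mul_le_mul_right _ hrank)
    obtain ⟨q, rfl⟩ : ∃ q, p = q + 1 := ⟨p - 1, by omega⟩
    rw [Nat.add_sub_cancel] at h2 ⊢
    nlinarith
  · unfold SemiK at hs
    push Not at hs
    obtain ⟨U, hU⟩ := hs
    obtain ⟨u, hu⟩ : ∃ u, u = finrank K U := ⟨_, rfl⟩
    obtain ⟨e⟩ : Nonempty (Basis (Fin u) K U) := ⟨Module.finBasisOfFinrankEq K _ hu.symm⟩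
    obtain ⟨b', hb'⟩ : ∃ b' : Fin u → F,
      b' = fun i => ∑ j, algebraMap K F ((e i).1 j) * b j := ⟨_, rfl⟩
    have hval : ∀ v : U, ∑ i, algebraMap K F (e.repr v i) * b' i =
        ∑ j, algebraMap K F (v.1 j) * b j := by
      intro v
      have h1 : v.1 = ∑ i, e.repr v i • (e i).1 := by
        have h := congrArg Subtype.val (e.sum_repr v)
        rw [AddSubmonoidClass.coe_finsetSum] at h
        exact h.symm
      rw [hb']
      simp only [Finset.mul_sum]
      rw [Finset.sum_comm]
      refine Finset.sum_congr rfl fun j _ => ?_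
      rw [h1]
      simp only [Finset.sum_apply, Pi.smul_apply, smul_eq_mul, map_sum, map_mul, Finset.sum_mul,
        mul_assoc]
    have hb'li : LinearIndependent K b' := by
      rw [Fintype.linearIndependent_iff]
      intro g hg i
      rw [Fintype.linearIndependent_iff] at hb
      obtain ⟨v, hv⟩ : ∃ v : U, v = ∑ i, g i • e i := ⟨_, rfl⟩
      have h1 : ∀ i, e.repr v i = g i := by
        intro i
        rw [hv, e.repr_sum_self]
      have h2 : ∑ j, algebraMap K F (v.1 j) * b j = 0 := by
        rw [← hval v, ← hg]
        refine Finset.sum_congr rfl fun i _ => ?_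
        rw [h1, Algebra.smul_def]
      have h3 : v.1 = 0 := by
        funext j
        apply hb v.1
        rw [← h2]
        refine Finset.sum_congr rfl fun i _ => ?_
        rw [Algebra.smul_def]
      have h4 : v = 0 := Subtype.ext h3
      rw [← h1, h4]
      simp
    -- the relation space for `b'`
    have hmem : ∀ (y : XiK A U) (k : Fin (n + 1)), Matrix.vecMul y.1 (A k) ∈ U := by
      intro y k
      have h1 := y.2
      unfold XiK at h1
      rw [Submodule.mem_iInf] at h1
      exact h1 k
    have hle : finrank K (XiK A U) ≤ finrank K (LinearMap.ker (phi (K := K) x b')) := by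
      let ψ : XiK A U →ₗ[K] (Fin (n + 1) → Fin u → K) :=
        LinearMap.pi (fun k => (e.equivFun.toLinearMap) ∘ₗ
          (((Matrix.vecMulLinear (A k)).domRestrict (XiK A U)).codRestrict U
            (fun y => hmem y k)))
      have hψ : ∀ (y : XiK A U) (k : Fin (n + 1)) (i : Fin u),
          ψ y k i = e.repr ⟨Matrix.vecMul y.1 (A k), hmem y k⟩ i := fun _ _ _ => rfl
      have hsum : ∀ (y : Fin l → K) (k : Fin (n + 1)) (j : Fin p),
          Matrix.vecMul y (A k) j = (∑ i, y i • (r i)).1 k j := by
        intro y k j
        rw [hA]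
        simp [Matrix.vecMul, dotProduct]
      have hker : ∀ y, ψ y ∈ LinearMap.ker (phi (K := K) x b') := by
        intro y
        rw [LinearMap.mem_ker, phi_apply]
        have h1 : ∀ k, ∑ i, algebraMap K F (ψ y k i) * b' i =
            ∑ j, algebraMap K F ((∑ i, y.1 i • (r i)).1 k j) * b j := by
          intro k
          have h2 := hval ⟨Matrix.vecMul y.1 (A k), hmem y k⟩
          simp only [hψ]
          rw [h2]
          refine Finset.sum_congr rfl fun j _ => ?_
          rw [← hsum y.1 k j]
        simp only [h1]
        rw [← phi_apply]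
        exact (∑ i, y.1 i • (r i)).2
      have hinj : Function.Injective ψ := by
        rw [injective_iff_map_eq_zero]
        intro y hy
        have h1 : ∑ i, y.1 i • (r i) = 0 := by
          apply Subtype.ext
          funext k j
          rw [← hsum y.1 k j]
          have h2 : (⟨Matrix.vecMul y.1 (A k), hmem y k⟩ : U) = 0 := by
            apply e.repr.injective
            ext i
            rw [← hψ, hy]
            simp
          have h3 := congrArg Subtype.val h2
          exact congrFun h3 j
        have h2 := r.linearIndependent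
        rw [Fintype.linearIndependent_iff] at h2
        apply Subtype.ext
        funext i
        exact h2 y.1 h1 i
      refine LinearMap.finrank_le_finrank_of_injective (f := ψ.codRestrict _ hker) ?_
      intro y z hyz
      apply hinj
      have := congrArg Subtype.val hyz
      exact this
    have hXil : finrank K (XiK A U) ≤ l := by
      have := Submodule.finrank_le (XiK A U)
      rwa [Module.finrank_fintype_fun_eq_card, Fintype.card_fin] at this
    have hup : u ≤ p := by
      have := Submodule.finrank_le U
      rw [Module.finrank_fintype_fun_eq_card, Fintype.card_fin] at this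
      omega
    rw [← hu] at hU
    have hup' : u < p := by
      rcases hup.lt_or_eq with h | h
      · exact h
      · exfalso
        subst h
        have h3 := Nat.mul_le_mul_left u hXil
        rw [Nat.mul_comm l u] at hU
        omega
    have hIH := ih u hup' b' hb'li
    have h3 : l * u < p * (u * (u - 1)) :=
      hU.trans_le (Nat.mul_le_mul_left p (hle.trans hIH))
    have hu0 : 0 < u := by
      rcases Nat.eq_zero_or_pos u with h | h
      · subst h
        simp at h3
      · exact h
    have h4 : l < p * (u - 1) := by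
      have h5 : u * l < u * (p * (u - 1)) := by
        calc u * l = l * u := Nat.mul_comm _ _
          _ < p * (u * (u - 1)) := h3
          _ = u * (p * (u - 1)) := by ring
      exact Nat.lt_of_mul_lt_mul_left h5
    exact h4.le.trans (Nat.mul_le_mul_left p (by omega))

theorem prd : T_PRD := by
  intro K F _ _ _ n x hx p b hb
  have h1 := ker_le x hx p b hb
  have h2 := LinearMap.finrank_range_add_finrank_ker (phi (K := K) x b)
  have h3 : finrank K (Fin (n + 1) → Fin p → K) = (n + 1) * p := by
    rw [Module.finrank_pi_fintype]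
    simp
  have hfd : FiniteDimensional K (Submodule.span K (Set.range (Fin.cons 1 x : Fin (n + 1) → F)) *
      Submodule.span K (Set.range b) : Submodule K F) := by
    rw [Submodule.span_mul_span]
    exact FiniteDimensional.span_of_finite K ((Set.finite_range _).mul (Set.finite_range _))
  have h4 : LinearMap.range (phi (K := K) x b) ≤
      (Submodule.span K (Set.range (Fin.cons 1 x : Fin (n + 1) → F)) *
        Submodule.span K (Set.range b) : Submodule K F) := by
    rintro _ ⟨r, rfl⟩
    rw [phi_apply]
    refine Submodule.sum_mem _ fun k _ => Submodule.mul_mem_mul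
      (Submodule.subset_span ⟨k, rfl⟩) (Submodule.sum_mem _ fun j _ => ?_)
    rw [← Algebra.smul_def]
    exact Submodule.smul_mem _ _ (Submodule.subset_span ⟨j, rfl⟩)
  have h5 := Submodule.finrank_mono h4
  rw [h3] at h2
  refine le_trans ?_ h5
  rcases Nat.lt_or_ge (n + 2) p with hp | hp
  · have : n + 2 - p = 0 := by omega
    rw [this]
    simp
  · obtain ⟨s, hs⟩ : ∃ s, n + 2 = p + s := ⟨n + 2 - p, by omega⟩
    have h6 : n + 2 - p = s := by omega
    rw [h6]
    rcases Nat.eq_zero_or_pos p with h | h
    · subst h; simp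
    · obtain ⟨q, rfl⟩ : ∃ q, p = q + 1 := ⟨p - 1, by omega⟩
      rw [Nat.add_sub_cancel] at h1
      have h7 : n + 1 = q + s := by omega
      have h8 : (n + 1) * (q + 1) = (q + s) * (q + 1) := by rw [h7]
      nlinarith

end

end Pool.Agent.H72.SBP
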