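import Pool.Agent.H72.HRA.Defs
import Pool.Agent.H72.BF.Targets2

open Module

namespace Pool.Agent.H72.SBP

open Pool.Agent.H72.HR
open Pool.Agent.H72.BF (Pkg AlgB Exc)

/-! Targets of the board sbp_modules: exceptional subspaces from the half rank theorem. -/

noncomputable section

section
variable {K F : Type} [Field K] [Field F] [Algebra K F] {n l c : ℕ}

/-- row vectors sent into `U` by all matrices of the pencil -/
def XiK (A : Fin (n + 1) → Matrix (Fin l) (Fin c) K) (U : Submodule K (Fin c → K)) :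
    Submodule K (Fin l → K) :=
  ⨅ k : Fin (n + 1), U.comap (Matrix.vecMulLinear (A k))

/-- semistable pencil -/
def SemiK (A : Fin (n + 1) → Matrix (Fin l) (Fin c) K) : Prop :=
  ∀ U : Submodule K (Fin c → K), c * finrank K (XiK A U) ≤ l * finrank K U

/-- value of a pencil at `x` -/
def MvK (x : Fin n → F) (A : Fin (n + 1) → Matrix (Fin l) (Fin c) K) :
    Matrix (Fin l) (Fin c) F :=
  fun p j => algebraMap K F (A 0 p j) + ∑ k : Fin n, x k * algebraMap K F (A k.succ p j)

end

/-- the half rank property of a tuple `x` over `K` -/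
def HRP (K F : Type) [Field K] [Field F] [Algebra K F] {n : ℕ} (x : Fin n → F) : Prop :=
  ∀ (l c : ℕ) (A : Fin (n + 1) → Matrix (Fin l) (Fin c) K), SemiK A →
    l * c ≤ (MvK x A).rank * (l + c)

/-- echelon bases with entries at most one -/
def T_ECH : Prop := ∀ (c : ℕ) (U : Submodule ℂ (Fin c → ℂ)) (u : ℕ), finrank ℂ U = u →
  ∃ (J : Fin u → Fin c) (b : Fin u → Fin c → ℂ), (∀ i, b i ∈ U) ∧
    (∀ i j, b i (J j) = if i = j then 1 else 0) ∧ (∀ i k, ‖b i k‖ ≤ 1) ∧
    ∀ v ∈ U, v = ∑ i, v (J i) • b i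

/-- descent: instability over a large field implies instability over the algebraically closed
field of definition -/
def T_DSC : Prop := ∀ (K F : Type) [Field K] [IsAlgClosed K] [Field F] [Algebra K F]
  (n l c u m : ℕ) (A : Fin (n + 1) → Matrix (Fin l) (Fin c) K)
  (J : Fin u → Fin c) (I : Fin m → Fin l) (b : Fin u → Fin c → F) (y : Fin m → Fin l → F),
  (∀ i j, b i (J j) = if i = j then 1 else 0) → (∀ i j, y i (I j) = if i = j then 1 else 0) →
  (∀ (i : Fin m) (k : Fin (n + 1)) (j : Fin c),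
    Matrix.vecMul (y i) ((A k).map (algebraMap K F)) j =
      ∑ s, Matrix.vecMul (y i) ((A k).map (algebraMap K F)) (J s) * b s j) →
  ∃ U : Submodule K (Fin c → K), finrank K U = u ∧ m ≤ finrank K (XiK A U)

/-- the half rank theorem in the residue field -/
def T_FHR : Prop := HRA.HRA → ∀ (n : ℕ) (lam : Fin n → ℂ),
  (∀ k, IsAlgebraic ℚ (Complex.exp (lam k))) → MI lam Set.univ →
  ∀ (H : ℕ → ℝ), (∀ t : ℕ, (t : ℝ) + 2 ≤ H t) → ∀ P : Pkg H,
  HRP P.kb P.F (fun k => P.cst (lam k))

/-- products with the linear forms -/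
def T_PRD : Prop := ∀ (K F : Type) [Field K] [Field F] [Algebra K F] (n : ℕ) (x : Fin n → F),
  HRP K F x → ∀ (p : ℕ) (b : Fin p → F), LinearIndependent K b →
  p * (n + 2 - p) ≤ finrank K (Submodule.span K (Set.range (Fin.cons 1 x : Fin (n + 1) → F)) *
    Submodule.span K (Set.range b) : Submodule K F)

/-- growth of the Hilbert function -/
def T_GRO : Prop := ∀ (K F : Type) [Field K] [IsAlgClosed K] [Field F] [Algebra K F] (n r : ℕ)
  (x : Fin n → F) (y : Fin r → F), HRP K F y →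
  (∀ k, y k ∈ Submodule.span K (Set.range (Fin.cons 1 x : Fin (n + 1) → F))) →
  ∀ d p : ℕ, p ≤ finrank K ((MvPolynomial.restrictTotalDegree (Fin n) K d).map
      (MvPolynomial.aeval x : MvPolynomial (Fin n) K →ₐ[K] F).toLinearMap) →
  finrank K ((MvPolynomial.restrictTotalDegree (Fin n) K d).map
      (MvPolynomial.aeval x : MvPolynomial (Fin n) K →ₐ[K] F).toLinearMap) + p * (r + 1 - p) ≤
    finrank K ((MvPolynomial.restrictTotalDegree (Fin n) K (d + 1)).map
      (MvPolynomial.aeval x : MvPolynomial (Fin n) K →ₐ[K] F).toLinearMap)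

/-- lower bound for the Hilbert function -/
def T_HLB : Prop := ∀ (K F : Type) [Field K] [IsAlgClosed K] [Field F] [Algebra K F] (n r : ℕ)
  (x : Fin n → F) (y : Fin r → F), LinearIndependent K (Fin.cons 1 x : Fin (n + 1) → F) →
  HRP K F y → (∀ k, y k ∈ Submodule.span K (Set.range (Fin.cons 1 x : Fin (n + 1) → F))) →
  ∀ d : ℕ, (n + 1) + d * max n ((r + 1) ^ 2 / 4) ≤
    finrank K ((MvPolynomial.restrictTotalDegree (Fin n) K (d + 1)).map
      (MvPolynomial.aeval x : MvPolynomial (Fin n) K →ₐ[K] F).toLinearMap)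

/-- THEOREM: exceptional subspaces. Here `r + 1` is the dimension over `ℚ` of the space generated
by the logarithms and `2πi`. -/
def SubspaceBoundPlus : Prop :=
  ∀ (n : ℕ) (lam : Fin n → ℂ), LinearIndependent ℚ lam →
    (∀ j, IsAlgebraic ℚ (Complex.exp (lam j))) → ∀ r : ℕ,
    r + 1 = finrank ℚ (Submodule.span ℚ (insert (2 * Real.pi * Complex.I) (Set.range lam))) →
    ∀ d : ℕ, ∃ C : ℝ, 0 < C ∧ ∀ H : ℝ, 2 ≤ H →
    ∃ W : Submodule ℚ (MvPolynomial (Fin n) ℚ),
      W ≤ MvPolynomial.restrictTotalDegree (Fin n) ℚ (d + 1) ∧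
      finrank ℚ W + (n + 1 + d * max n ((r + 1) ^ 2 / 4)) ≤ (n + (d + 1)).choose n ∧
      ∀ P ∈ Exc n lam (d + 1) C H, MvPolynomial.map (Int.castRingHom ℚ) P ∈ W

def T_SBP : Prop := HRA.HRA → SubspaceBoundPlus

end

end Pool.Agent.H72.SBP
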